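import Pool.Agent.H24R2.PC.Spec
set_option autoImplicit false
namespace Pool.Agent.H24R2.PC
open Complex Filter Topology MeasureTheory Set
open Pool.Agent.H24R2.JP (XX HH Om)
open Pool.Agent.H24R2.DZ (reg SUnit)

theorem pChain : SChain := by
  intro Q u ε K s hu hε hεK hs H
  classical
  have hK0 : (0 : ℝ) ≤ K := Nat.cast_nonneg K
  have e0 : ε * ((K : ℝ) + 2) ≤ 1 / 4 := by linarith
  have hε8 : ε ≤ 1 / 8 := by nlinarith
  have hnx : ∀ z : ℂ, ∃ w : ℂ, (z ∈ Q → s.im ≤ z.im → z.im ≤ s.im + ((K : ℝ) + 2) * u →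
      w ∈ Q ∧ (1 - ε) * u ≤ w.im - z.im ∧ w.im - z.im ≤ (1 + ε) * u) := by
    intro z
    by_cases h : z ∈ Q ∧ s.im ≤ z.im ∧ z.im ≤ s.im + ((K : ℝ) + 2) * u
    · obtain ⟨w, hw, h1, h2⟩ := (H z h.1 h.2.1 h.2.2).2
      exact ⟨w, fun _ _ _ => ⟨hw, h1, h2⟩⟩
    · exact ⟨z, fun a b c => absurd ⟨a, b, c⟩ h⟩
  choose nx hnx using hnx
  obtain ⟨σ, hσ0, hσs⟩ : ∃ σ : ℕ → ℂ, σ 0 = s ∧ ∀ k, σ (k + 1) = nx (σ k) :=
    ⟨fun k => nx^[k] s, rfl, fun k => Function.iterate_succ_apply' nx k s⟩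
  have key : ∀ k : ℕ, k ≤ K + 1 → |(σ k).im - s.im - k * u| ≤ ε * k * u →
      s.im ≤ (σ k).im ∧ (σ k).im ≤ s.im + ((K : ℝ) + 2) * u := by
    intro k hk hb
    have hk' : (k : ℝ) ≤ K + 1 := by exact_mod_cast hk
    have h0 : (0 : ℝ) ≤ k := Nat.cast_nonneg k
    rw [abs_le] at hb
    have e1 : ε * k ≤ 1 / 4 :=
      le_trans (mul_le_mul_of_nonneg_left (by linarith) hε.le) e0
    have e2 : ε * k * u ≤ 1 / 4 * u := mul_le_mul_of_nonneg_right e1 hu.le
    have e3 : (0 : ℝ) ≤ (k : ℝ) * u * (1 - ε) :=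
      mul_nonneg (mul_nonneg h0 hu.le) (by linarith)
    have e4 : (k : ℝ) * u ≤ (K + 1) * u := mul_le_mul_of_nonneg_right hk' hu.le
    constructor
    · nlinarith [hb.1]
    · nlinarith [hb.2]
  have hgood : ∀ k : ℕ, k ≤ K + 1 → σ k ∈ Q ∧ |(σ k).im - s.im - k * u| ≤ ε * k * u := by
    intro k
    induction k with
    | zero => intro _; rw [hσ0]; simp [hs]
    | succ k ih =>
      intro hk
      obtain ⟨hq, hb⟩ := ih (by omega)
      obtain ⟨ge, le⟩ := key k (by omega) hb
      obtain ⟨a, b, c⟩ := hnx (σ k) hq ge le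
      rw [abs_le] at hb
      rw [hσs]
      refine ⟨a, ?_⟩
      rw [abs_le]
      push_cast
      constructor <;> nlinarith [hb.1, hb.2]
  have hstep : ∀ k : ℕ, k ≤ K + 1 → (1 - ε) * u ≤ (σ (k + 1)).im - (σ k).im ∧
      (σ (k + 1)).im - (σ k).im ≤ (1 + ε) * u := by
    intro k hk
    obtain ⟨hq, hb⟩ := hgood k hk
    obtain ⟨ge, le⟩ := key k hk hb
    obtain ⟨a, b, c⟩ := hnx (σ k) hq ge le
    rw [hσs]
    exact ⟨b, c⟩
  have hsep : ∀ k : ℕ, k ≤ K + 1 → ∀ z' ∈ Q, z' ≠ σ k → (1 - ε) * u ≤ |z'.im - (σ k).im| := by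
    intro k hk
    obtain ⟨hq, hb⟩ := hgood k hk
    obtain ⟨ge, le⟩ := key k hk hb
    exact (H (σ k) hq ge le).1
  have hpos : 0 < (1 - ε) * u := mul_pos (by linarith) hu
  have hmono : ∀ i j : ℕ, i < j → j ≤ K + 2 → (σ i).im < (σ j).im := by
    intro i j hij
    induction j with
    | zero => omega
    | succ j ih =>
      intro hj
      have h1 := (hstep j (by omega)).1
      rcases Nat.lt_succ_iff_lt_or_eq.mp hij with h | h
      · have := ih h (by omega)
        linarith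
      · subst h
        linarith
  refine ⟨σ, fun k _ hk => hgood k (by omega), ?_, ?_⟩
  · intro i j hi hiK hj hjK hij
    rcases lt_trichotomy i j with h | h | h
    · have := hmono i j h (by omega)
      rw [hij] at this
      exact absurd this (lt_irrefl _)
    · exact h
    · have := hmono j i h (by omega)
      rw [hij] at this
      exact absurd this (lt_irrefl _)
  · intro z hz hz1 hz2
    have hP0 : (σ 0).im ≤ z.im := by rw [hσ0]; exact hz1.le
    have hlast : z.im < (σ (K + 1)).im := by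
      obtain ⟨_, hb⟩ := hgood (K + 1) le_rfl
      rw [abs_le] at hb
      have e1 : ε * ((K + 1 : ℕ) : ℝ) ≤ 1 / 4 := by
        push_cast
        nlinarith
      have e2 : ε * ((K + 1 : ℕ) : ℝ) * u ≤ 1 / 4 * u := mul_le_mul_of_nonneg_right e1 hu.le
      have hb1 := hb.1
      have e3 : ((K + 1 : ℕ) : ℝ) * u = K * u + u := by push_cast; ring
      linarith
    have hfind : (σ (Nat.findGreatest (fun k => (σ k).im ≤ z.im) K)).im ≤ z.im :=
      Nat.findGreatest_spec (P := fun k => (σ k).im ≤ z.im) (Nat.zero_le K) hP0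
    have hle : Nat.findGreatest (fun k => (σ k).im ≤ z.im) K ≤ K := Nat.findGreatest_le K
    have hgr : ∀ m : ℕ, Nat.findGreatest (fun k => (σ k).im ≤ z.im) K < m → m ≤ K →
        ¬ (σ m).im ≤ z.im := fun m hm hmK =>
      Nat.findGreatest_is_greatest (P := fun k => (σ k).im ≤ z.im) hm hmK
    generalize Nat.findGreatest (fun k => (σ k).im ≤ z.im) K = k at hfind hle hgr
    have hnext : z.im < (σ (k + 1)).im := by
      rcases Nat.lt_or_ge k K with h | h
      · exact not_le.mp (hgr (k + 1) (by omega) (by omega))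
      · have : k = K := le_antisymm hle h
        rw [this]; exact hlast
    have hzk : z = σ k := by
      by_contra hne
      have s1 := hsep k (by omega) z hz hne
      have hne2 : z ≠ σ (k + 1) := by
        intro h
        rw [h] at hnext
        exact lt_irrefl _ hnext
      have s2 := hsep (k + 1) (by omega) z hz hne2
      rw [abs_of_nonneg (by linarith)] at s1
      rw [abs_of_neg (by linarith)] at s2
      have s3 := (hstep k (by omega)).2
      nlinarith
    refine ⟨k, ?_, hle, hzk⟩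
    rcases Nat.eq_zero_or_pos k with h | h
    · rw [h, hσ0] at hzk
      rw [hzk] at hz1
      exact absurd hz1 (lt_irrefl _)
    · exact h

end Pool.Agent.H24R2.PC
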