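import Pool.Agent.H24R2.PC.Spec

set_option autoImplicit false

namespace Pool.Agent.H24R2.PC

open Complex Filter Topology MeasureTheory Set
open Pool.Agent.H24R2.JP (XX HH Om)
open Pool.Agent.H24R2.DZ (reg SUnit)

namespace CntAux

open Classical in
theorem card_win {T : ℝ} (hT : 1 ≤ T) (S : Finset ℂ) (hS : ∀ s ∈ S, T < s.im ∧ s.im ≤ 2 * T) :
    ((S.image fun s => ⌊s.im⌋).card : ℝ) ≤ 4 * T := by
  have hsub : (S.image fun s => ⌊s.im⌋) ⊆ Finset.Icc 0 ⌊2 * T⌋ := by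
    intro j hj
    obtain ⟨s, hs, rfl⟩ := Finset.mem_image.mp hj
    obtain ⟨ha, hb⟩ := hS s hs
    rw [Finset.mem_Icc]
    exact ⟨Int.floor_nonneg.mpr (by linarith), Int.floor_le_floor hb⟩
  have h6 := Finset.card_le_card hsub
  rw [Int.card_Icc] at h6
  have h7 : (((⌊2 * T⌋ + 1 - 0).toNat : ℕ) : ℝ) ≤ 2 * T + 1 := by
    have h8 : (0 : ℤ) ≤ ⌊2 * T⌋ + 1 - 0 := by
      have : (0 : ℤ) ≤ ⌊2 * T⌋ := Int.floor_nonneg.mpr (by linarith)
      linarith
    have h9 : (((⌊2 * T⌋ + 1 - 0).toNat : ℕ) : ℤ) = ⌊2 * T⌋ + 1 - 0 := Int.toNat_of_nonneg h8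
    have h10 : (((⌊2 * T⌋ + 1 - 0).toNat : ℕ) : ℝ) = ((⌊2 * T⌋ + 1 - 0 : ℤ) : ℝ) := by
      exact_mod_cast h9
    rw [h10]
    push_cast
    have := Int.floor_le (2 * T)
    linarith
  calc ((S.image fun s => ⌊s.im⌋).card : ℝ) ≤ ((⌊2 * T⌋ + 1 - 0).toNat : ℕ) := by
        exact_mod_cast h6
    _ ≤ 2 * T + 1 := h7
    _ ≤ 4 * T := by linarith

end CntAux

open Classical in
theorem pCnt (h1 : SUnit) : SCnt := by
  obtain ⟨C0, T0, hC0, hT0, hU⟩ := h1
  refine ⟨8 * C0, max T0 3, by positivity, hT0.trans (le_max_left _ _), ?_⟩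
  intro T n hT hn S hS
  have hTT : T0 ≤ T := (le_max_left _ _).trans hT
  have hT3 : 3 ≤ T := (le_max_right _ _).trans hT
  have hlogpos : 0 < Real.log T := Real.log_pos (by linarith)
  have hcard := CntAux.card_win (T := T) (by linarith) S (fun s hs => (hS s hs).2)
  have hmaps : ∀ s ∈ S, ⌊s.im⌋ ∈ S.image (fun s => ⌊s.im⌋) := fun s hs =>
    Finset.mem_image_of_mem (fun s : ℂ => ⌊s.im⌋) hs
  rw [← Finset.sum_fiberwise_of_maps_to hmaps]
  have hfib : ∀ j ∈ S.image (fun s => ⌊s.im⌋),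
      ∑ s ∈ S with ⌊s.im⌋ = j, mu n s ≤ 2 * C0 * Real.log T := by
    intro j hj
    obtain ⟨s0, hs0, hj0⟩ := Finset.mem_image.mp hj
    obtain ⟨-, ha, hb⟩ := hS s0 hs0
    have hj1 : s0.im < (j : ℝ) + 1 := by
      rw [← hj0]; exact Int.lt_floor_add_one _
    have hj2 : (j : ℝ) ≤ s0.im := by
      rw [← hj0]; exact Int.floor_le _
    have ht0 : T0 ≤ (j : ℝ) + 1 := by linarith
    have hlt : Real.log T ≤ Real.log ((j : ℝ) + 1) := Real.log_le_log (by linarith) (by linarith)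
    have hlt2 : Real.log ((j : ℝ) + 1) ≤ 2 * Real.log T := by
      have h2 : Real.log (T ^ 2) = 2 * Real.log T := by
        rw [Real.log_pow]; norm_num
      rw [← h2]
      apply Real.log_le_log (by linarith)
      nlinarith
    have hb1 := hU ((j : ℝ) + 1) n ht0 (by linarith) (S.filter (fun s => ⌊s.im⌋ = j)) (by
      intro s hs
      obtain ⟨hs1, hs2⟩ := Finset.mem_filter.mp hs
      refine ⟨?_, (hS s hs1).1⟩
      have e1 : s.im < (j : ℝ) + 1 := by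
        rw [← hs2]; exact Int.lt_floor_add_one _
      have e2 : (j : ℝ) ≤ s.im := by
        rw [← hs2]; exact Int.floor_le _
      rw [abs_le]
      constructor <;> linarith)
    calc ∑ s ∈ S with ⌊s.im⌋ = j, mu n s ≤ C0 * Real.log ((j : ℝ) + 1) := hb1
      _ ≤ C0 * (2 * Real.log T) := mul_le_mul_of_nonneg_left hlt2 hC0.le
      _ = 2 * C0 * Real.log T := by ring
  calc ∑ j ∈ S.image (fun s => ⌊s.im⌋), ∑ s ∈ S with ⌊s.im⌋ = j, mu n s
      ≤ ∑ _j ∈ S.image (fun s => ⌊s.im⌋), 2 * C0 * Real.log T := Finset.sum_le_sum hfib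
    _ = ((S.image fun s => ⌊s.im⌋).card : ℝ) * (2 * C0 * Real.log T) := by
        rw [Finset.sum_const, nsmul_eq_mul]
    _ ≤ 4 * T * (2 * C0 * Real.log T) := mul_le_mul_of_nonneg_right hcard (by positivity)
    _ = 8 * C0 * (T * Real.log T) := by ring

end Pool.Agent.H24R2.PC
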