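import Pool.Agent.H24R2.PC.Spec

set_option autoImplicit false

namespace Pool.Agent.H24R2.PC

open Complex Filter Topology MeasureTheory Set
open Pool.Agent.H24R2.JP (XX HH Om)
open Pool.Agent.H24R2.DZ (reg SUnit)

namespace DiagAux

theorem diffXX : Differentiable ℂ XX := by
  unfold XX
  have h := differentiable_completedZeta₀
  have h2 : Differentiable ℂ (fun z : ℂ => completedRiemannZeta₀ (1 / 2 + z)) :=
    h.comp (by fun_prop)
  fun_prop

theorem diffIter (n : ℕ) : Differentiable ℂ (iteratedDeriv n XX) := by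
  have h : ContDiff ℂ ⊤ XX := diffXX.contDiff
  exact h.differentiable_iteratedDeriv n (by exact_mod_cast WithTop.coe_lt_top _)

/-- simple zeros have multiplicity one -/
theorem mu_one {n : ℕ} {s : ℂ} (h0 : iteratedDeriv n XX s = 0)
    (h1 : iteratedDeriv (n + 1) XX s ≠ 0) : mu n s = 1 := by
  have ha : AnalyticAt ℂ (iteratedDeriv n XX) s := (diffIter n).analyticAt s
  have hb : AnalyticAt ℂ (iteratedDeriv (n + 1) XX) s := (diffIter (n + 1)).analyticAt s
  have h2 := ha.analyticOrderAt_deriv_add_one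
  have h3 : deriv (iteratedDeriv n XX) = iteratedDeriv (n + 1) XX := by
    rw [iteratedDeriv_succ]
  rw [h3, h0] at h2
  have h4 : analyticOrderAt (iteratedDeriv (n + 1) XX) s = 0 := hb.analyticOrderAt_eq_zero.2 h1
  rw [h4, zero_add] at h2
  simp only [sub_zero] at h2
  unfold mu analyticOrderNatAt
  have h5 : analyticOrderAt (iteratedDeriv n XX) s = 1 := h2.symm
  rw [h5]
  simp

end DiagAux

open DiagAux in
theorem pDiag (h1 : SPair) (h4 : SOne) : SDiag := by
  classical
  intro δ hδ
  obtain ⟨c, C, T0, n0, hc, hC, hT0, hP⟩ := h1 (1 / 2) 1 (by norm_num) le_rfl one_pos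
  -- choose `n1`
  have hlim : Tendsto (fun n : ℕ => C * Real.exp (-(c * n))) atTop (𝓝 0) := by
    have h2 : Tendsto (fun n : ℕ => c * (n : ℝ)) atTop atTop :=
      tendsto_natCast_atTop_atTop.const_mul_atTop hc
    have h3 := (Real.tendsto_exp_neg_atTop_nhds_zero.comp h2).const_mul C
    rw [mul_zero] at h3
    exact h3
  obtain ⟨n1, hn1⟩ := eventually_atTop.1 (hlim.eventually_lt_const hδ)
  refine ⟨max n0 n1, T0, hT0, fun T n hT hn hnT Z hZ => ?_⟩
  have hn0' : n0 ≤ n := (le_max_left _ _).trans hn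
  have hn1' : n1 ≤ n := (le_max_right _ _).trans hn
  have hT1 : 1 < T := by linarith
  have hL : 0 < Real.log T := Real.log_pos hT1
  have hpi := Real.pi_pos
  have hmu0 : ∀ s, 0 ≤ mu n s := fun s => Nat.cast_nonneg _
  set I : ℂ → ℝ := fun s => ∑ z ∈ Z with z.im = s.im, mu n z with hI
  set N : ℂ → ℝ := fun s => ∑ z ∈ Z with |z.im - s.im| ≤ 1 / Real.log T, mu n z with hN
  have hIge : ∀ s ∈ Z, 1 ≤ I s := by
    intro s hs
    have h5 : 1 ≤ mu n s := h4 n s ((hZ s).1 hs).1
    refine h5.trans ?_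
    exact Finset.single_le_sum (f := fun z => mu n z) (fun z _ => hmu0 z)
      (Finset.mem_filter.2 ⟨hs, rfl⟩)
  have hIN : ∀ s, I s ≤ N s := by
    intro s
    apply Finset.sum_le_sum_of_subset_of_nonneg
    · intro z hz
      rw [Finset.mem_filter] at hz ⊢
      refine ⟨hz.1, ?_⟩
      rw [hz.2, sub_self, abs_zero]
      positivity
    · intro z _ _
      exact hmu0 z
  -- regular zeros
  have hreg : ∀ s ∈ Z, reg (1 / 2) (Real.log T) n s → mu n s * I s - mu n s = 0 := by
    intro s hs hr
    have h5 : mu n s = 1 := mu_one ((hZ s).1 hs).1 hr.2.1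
    have h6 : I s = mu n s := by
      have h7 : Z.filter (fun z => z.im = s.im) = {s} := by
        ext z
        rw [Finset.mem_filter, Finset.mem_singleton]
        constructor
        · rintro ⟨hz, hzi⟩
          by_contra hne
          have h8 := hr.2.2.1 z ((hZ z).1 hz).1 hne
          rw [hzi, sub_self, abs_zero] at h8
          have h9 : 0 < (1 - 1 / 2 : ℝ) * (2 * Real.pi / Real.log T) := by positivity
          linarith
        · rintro rfl
          exact ⟨hs, rfl⟩
      rw [hI]
      simp only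
      rw [h7, Finset.sum_singleton]
    rw [h6, h5]
    norm_num
  have hsum : ∑ s ∈ Z, mu n s * I s - ∑ s ∈ Z, mu n s = ∑ s ∈ Z, (mu n s * I s - mu n s) := by
    rw [Finset.sum_sub_distrib]
  have hpos : 0 ≤ ∑ s ∈ Z, (mu n s * I s - mu n s) := by
    apply Finset.sum_nonneg
    intro s hs
    have h5 := hIge s hs
    have h6 := hmu0 s
    nlinarith
  have hle : ∑ s ∈ Z, (mu n s * I s - mu n s) ≤
      ∑ s ∈ Z with ¬ reg (1 / 2) (Real.log T) n s, mu n s * N s ^ 2 := by
    rw [← Finset.sum_filter_add_sum_filter_not Z (fun s => reg (1 / 2) (Real.log T) n s)]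
    have h5 : ∑ s ∈ Z with reg (1 / 2) (Real.log T) n s, (mu n s * I s - mu n s) = 0 := by
      apply Finset.sum_eq_zero
      intro s hs
      rw [Finset.mem_filter] at hs
      exact hreg s hs.1 hs.2
    rw [h5, zero_add]
    apply Finset.sum_le_sum
    intro s hs
    rw [Finset.mem_filter] at hs
    have h6 := hIge s hs.1
    have h7 := hIN s
    have h8 := hmu0 s
    have h9 : I s ≤ N s ^ 2 := by nlinarith
    have h10 : mu n s * I s ≤ mu n s * N s ^ 2 := mul_le_mul_of_nonneg_left h9 h8
    linarith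
  have hPP := hP T n hT hn0' hnT (Z.filter fun s => ¬ reg (1 / 2) (Real.log T) n s) Z
    (by
      intro s hs
      rw [Finset.mem_filter] at hs
      have h5 := (hZ s).1 hs.1
      exact ⟨⟨h5.1, hs.2⟩, h5.2.1, h5.2.2⟩)
    (fun z hz => ((hZ z).1 hz).1)
  have h11 : C * T * Real.exp (-(c * n)) * Real.log T ≤ δ * (T * Real.log T) := by
    have h12 := (hn1 n hn1').le
    have h13 : 0 ≤ T * Real.log T := by positivity
    calc C * T * Real.exp (-(c * n)) * Real.log T = (C * Real.exp (-(c * n))) * (T * Real.log T) := by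
          ring
      _ ≤ δ * (T * Real.log T) := mul_le_mul_of_nonneg_right h12 h13
  show |∑ s ∈ Z, mu n s * I s - ∑ s ∈ Z, mu n s| ≤ δ * (T * Real.log T)
  rw [hsum, abs_of_nonneg hpos]
  exact (hle.trans hPP).trans h11

end Pool.Agent.H24R2.PC
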