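import Pool.Agent.H24R2.PC.SpecN
import Pool.Agent.H24R2.DZ.B1c

set_option autoImplicit false

/-!
# Task EX: existence of zeros at a good point (helper365)
-/

namespace Pool.Agent.H24R2.PC

open Complex Filter Topology MeasureTheory Set
open Pool.Agent.H24R2.JP (XX HH Om)
open Pool.Agent.H24R2.DZ

namespace EXAux

theorem par (n : ℕ) : ∃ f : ℂ → ℝ, Continuous f ∧ (∀ z, f (-z) = -f z) ∧
    (∀ (r : ℝ) (z : ℂ), f ((r : ℂ) * z) = r * f z) ∧
    ∀ z, f z = 0 → z + (-1) ^ n * (starRingEnd ℂ) z = 0 := by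
  rcases n.even_or_odd with hn | hn
  · refine ⟨Complex.re, Complex.continuous_re, fun z => Complex.neg_re z,
      fun r z => Complex.re_ofReal_mul r z, fun z hz => ?_⟩
    rw [hn.neg_one_pow, one_mul, Complex.add_conj, hz]
    simp
  · refine ⟨Complex.im, Complex.continuous_im, fun z => Complex.neg_im z,
      fun r z => Complex.im_ofReal_mul r z, fun z hz => ?_⟩
    rw [hn.neg_one_pow, neg_one_mul, ← sub_eq_add_neg, Complex.sub_conj, hz]
    simp

end EXAux

open Pool.Agent.H24R2.DZ.B1Caux EXAux in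
theorem pEx (h1 : SHalf) (h2 : SRatE) : SEx := by
  intro ε hε hε2
  obtain ⟨η1, n1, hη1, H1⟩ := h2 (ε / 4) (by positivity)
  refine ⟨η1, max n1 1000, hη1, le_trans (by norm_num) (le_max_right _ _), ?_⟩
  intro n F hn hN y0 hy0i
  have hn1 : n1 ≤ n := (le_max_left _ _).trans hn
  have hn5 : 1000 ≤ n := (le_max_right _ _).trans hn
  have hnR : (1000 : ℝ) ≤ n := by exact_mod_cast hn5
  have hnpos : (0 : ℝ) < n := by linarith
  have hy0 : |y0| ≤ 1 / 100 := hy0i.trans (by norm_num)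
  obtain ⟨Φ, hΦc, hΦ0, hΦA, hΦb⟩ := phase h1 F n (ε / 4) hN.diff hN.symm
    (fun w hr hi => H1 n F hn1 hN w hr hi) y0 hy0
  set A0 : ℂ := hc F (n + 1) (I * (y0 : ℂ)) with hA0
  have hre : ∀ y : ℝ, |(Φ y).re - (y - y0)| ≤ ε / 4 * |y - y0| := by
    intro y
    have h5 := Complex.abs_re_le_norm (Φ y - ((y - y0 : ℝ) : ℂ))
    rw [Complex.sub_re, Complex.ofReal_re] at h5
    exact h5.trans (hΦb y)
  have hn1pos : (0 : ℝ) < (n : ℝ) + 1 := by linarith
  have hpi := Real.pi_pos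
  set y2 : ℝ := y0 + (1 + ε) * (Real.pi / n) with hy2
  have hstep : 0 < (1 + ε) * (Real.pi / n) := by positivity
  have hstep2 : (1 + ε) * (Real.pi / n) ≤ 1 / 200 := by
    rw [← mul_div_assoc, div_le_iff₀ hnpos]
    nlinarith [Real.pi_lt_d2]
  set θ : ℝ → ℝ := fun y => ((n : ℝ) + 1) * (Φ y).re with hθ
  have hθc : Continuous θ := continuous_const.mul (Complex.continuous_re.comp hΦc)
  have hθ0 : θ y0 = 0 := by
    rw [hθ]
    simp only
    rw [hΦ0]
    simp
  have hend : Real.pi ≤ θ y2 := by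
    have h5 := hre y2
    have h6 : y2 - y0 = (1 + ε) * (Real.pi / n) := by rw [hy2]; ring
    rw [h6, abs_of_pos hstep] at h5
    have h7 := (abs_le.1 h5).1
    have h8 : (1 - ε / 4) * ((1 + ε) * (Real.pi / n)) ≤ (Φ y2).re := by linarith
    have h9 : Real.pi / n ≤ (1 - ε / 4) * ((1 + ε) * (Real.pi / n)) := by
      have h10 : 0 < Real.pi / n := by positivity
      have h11 : 1 ≤ (1 - ε / 4) * (1 + ε) := by nlinarith
      nlinarith
    calc Real.pi = n * (Real.pi / n) := by field_simp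
      _ ≤ ((n : ℝ) + 1) * (Real.pi / n) := by
          apply mul_le_mul_of_nonneg_right (by linarith)
          positivity
      _ ≤ ((n : ℝ) + 1) * (Φ y2).re :=
          mul_le_mul_of_nonneg_left (h9.trans h8) hn1pos.le
  have hle : y0 ≤ y2 := by rw [hy2]; linarith
  have hmem : Real.pi ∈ Icc (θ y0) (θ y2) := ⟨by rw [hθ0]; exact hpi.le, hend⟩
  obtain ⟨y1, hy1, hy1π⟩ := intermediate_value_Icc hle hθc.continuousOn hmem
  obtain ⟨f, hfc, hfn, hfm, hfz⟩ := par n
  set W : ℝ → ℝ := fun y => f (A0 * cexp ((θ y : ℝ) * I)) with hW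
  have hWc : Continuous W := by
    refine hfc.comp (continuous_const.mul (Complex.continuous_exp.comp ?_))
    exact (Complex.continuous_ofReal.comp hθc).mul continuous_const
  have hW0 : W y0 = f A0 := by
    rw [hW]
    simp only
    rw [hθ0]
    simp
  have hW1 : W y1 = -f A0 := by
    rw [hW]
    simp only
    rw [hy1π, Complex.exp_pi_mul_I, mul_neg_one, hfn]
  have hmem0 : (0 : ℝ) ∈ uIcc (W y0) (W y1) := by
    rw [hW0, hW1, mem_uIcc]
    rcases le_total (f A0) 0 with h | h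
    · left; exact ⟨h, by linarith⟩
    · right; exact ⟨by linarith, h⟩
  obtain ⟨y, hy, hyW⟩ := intermediate_value_uIcc hWc.continuousOn hmem0
  rw [uIcc_of_le hy1.1] at hy
  have hyb : |y| ≤ 1 / 100 := by
    obtain ⟨h5, h6⟩ := abs_le.1 hy0i
    rw [abs_le]
    have h7 := hy1.2
    rw [hy2] at h7
    constructor
    · linarith [hy.1]
    · linarith [hy.2]
  refine ⟨y, hy.1, ?_, ?_⟩
  · have := hy1.2
    rw [hy2] at this
    linarith [hy.2]
  · rw [zero_iff h1 F n hN.diff hN.symm y (lt_of_le_of_lt hyb (by norm_num)), hΦA y hyb,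
      exp_split]
    apply hfz
    have e1 : A0 * (((Real.exp (-(((n : ℝ) + 1) * (Φ y).im)) : ℝ) : ℂ) *
        cexp ((((n : ℝ) + 1) * (Φ y).re : ℝ) * I)) =
        ((Real.exp (-(((n : ℝ) + 1) * (Φ y).im)) : ℝ) : ℂ) * (A0 * cexp ((θ y : ℝ) * I)) := by
      rw [hθ]
      ring
    rw [e1, hfm]
    have e2 : f (A0 * cexp ((θ y : ℝ) * I)) = 0 := hyW
    rw [e2, mul_zero]

end Pool.Agent.H24R2.PC
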