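import Pool.Agent.H24R2.PC.Spec
set_option autoImplicit false
namespace Pool.Agent.H24R2.PC
open Complex Filter Topology MeasureTheory Set
open Pool.Agent.H24R2.JP (XX HH Om)
open Pool.Agent.H24R2.DZ (reg SUnit)

namespace FinAux

theorem split (Z : Finset ℂ) (m : ℂ → ℝ) (f : ℝ → ℝ) (c p : ℝ) :
    ∑ s ∈ Z, ∑ z ∈ Z, m s * m z * f ((z.im - s.im) * c / p) =
      f 0 * ∑ s ∈ Z, m s * ∑ z ∈ Z with z.im = s.im, m z +
      ∑ s ∈ Z, m s * ∑ z ∈ Z with s.im < z.im,
        m z * (f ((z.im - s.im) * c / p) + f (-((z.im - s.im) * c / p))) := by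
  classical
  have h1 : ∀ s z : ℂ, m s * m z * f ((z.im - s.im) * c / p) =
      (if z.im = s.im then m s * m z * f 0 else 0) +
      (if s.im < z.im then m s * m z * f ((z.im - s.im) * c / p) else 0) +
      (if z.im < s.im then m s * m z * f ((z.im - s.im) * c / p) else 0) := by
    intro s z
    rcases lt_trichotomy z.im s.im with h | h | h
    · rw [if_neg h.ne, if_neg h.not_gt, if_pos h]; ring
    · rw [if_pos h, if_neg (by rw [h]; exact lt_irrefl _), if_neg (by rw [h]; exact lt_irrefl _),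
        h, sub_self, zero_mul, zero_div]
      ring
    · rw [if_neg h.ne', if_pos h, if_neg h.not_gt]; ring
  have h2 : ∑ s ∈ Z, ∑ z ∈ Z, (if z.im < s.im then m s * m z * f ((z.im - s.im) * c / p) else 0) =
      ∑ s ∈ Z, ∑ z ∈ Z,
        (if s.im < z.im then m s * m z * f (-((z.im - s.im) * c / p)) else 0) := by
    rw [Finset.sum_comm]
    refine Finset.sum_congr rfl fun s _ => Finset.sum_congr rfl fun z _ => ?_
    split_ifs with h
    · rw [show -((z.im - s.im) * c / p) = (s.im - z.im) * c / p by ring]; ring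
    · rfl
  have h3 : ∑ s ∈ Z, ∑ z ∈ Z, (if z.im = s.im then m s * m z * f 0 else 0) =
      f 0 * ∑ s ∈ Z, m s * ∑ z ∈ Z with z.im = s.im, m z := by
    rw [Finset.mul_sum]
    refine Finset.sum_congr rfl fun s _ => ?_
    rw [Finset.sum_filter, Finset.mul_sum, Finset.mul_sum]
    refine Finset.sum_congr rfl fun z _ => ?_
    split_ifs <;> ring
  have h4 : ∑ s ∈ Z, ∑ z ∈ Z, (if s.im < z.im then m s * m z * f ((z.im - s.im) * c / p) else 0) +
      ∑ s ∈ Z, ∑ z ∈ Z,
        (if s.im < z.im then m s * m z * f (-((z.im - s.im) * c / p)) else 0) =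
      ∑ s ∈ Z, m s * ∑ z ∈ Z with s.im < z.im,
        m z * (f ((z.im - s.im) * c / p) + f (-((z.im - s.im) * c / p))) := by
    rw [← Finset.sum_add_distrib]
    refine Finset.sum_congr rfl fun s _ => ?_
    rw [← Finset.sum_add_distrib, Finset.sum_filter, Finset.mul_sum]
    refine Finset.sum_congr rfl fun z _ => ?_
    split_ifs <;> ring
  calc ∑ s ∈ Z, ∑ z ∈ Z, m s * m z * f ((z.im - s.im) * c / p)
      = ∑ s ∈ Z, ∑ z ∈ Z, ((if z.im = s.im then m s * m z * f 0 else 0) +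
      (if s.im < z.im then m s * m z * f ((z.im - s.im) * c / p) else 0) +
      (if z.im < s.im then m s * m z * f ((z.im - s.im) * c / p) else 0)) :=
        Finset.sum_congr rfl fun s _ => Finset.sum_congr rfl fun z _ => h1 s z
    _ = _ := by
      simp only [Finset.sum_add_distrib]
      rw [h2, h3, add_assoc, h4]

theorem tsumZ (f : ℝ → ℝ) (K : ℕ) (hf : ∀ x : ℝ, (K : ℝ) ≤ |x| → f x = 0) :
    (∑' k : ℤ, f k) = f 0 + ∑ k ∈ Finset.Icc 1 K, (f ((k : ℕ) : ℝ) + f (-((k : ℕ) : ℝ))) := by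
  have e1 : ∀ n : ℕ, n ∉ Finset.range (K + 1) → (fun n : ℕ => f (((n : ℕ) : ℤ) : ℝ)) n = 0 := by
    intro n hn
    apply hf
    rw [Finset.mem_range, not_lt] at hn
    push_cast
    rw [abs_of_nonneg (Nat.cast_nonneg n)]
    exact_mod_cast (Nat.le_succ K).trans hn
  have e2 : ∀ n : ℕ, n ∉ Finset.range K →
      (fun n : ℕ => f ((-((n : ℤ) + 1) : ℤ) : ℝ)) n = 0 := by
    intro n hn
    apply hf
    rw [Finset.mem_range, not_lt] at hn
    push_cast
    rw [abs_neg, abs_of_nonneg (by positivity)]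
    exact_mod_cast hn.trans (Nat.le_succ n)
  have s1 : Summable (fun n : ℕ => f (((n : ℕ) : ℤ) : ℝ)) :=
    summable_of_ne_finset_zero (s := Finset.range (K + 1)) e1
  have s2 : Summable (fun n : ℕ => f ((-((n : ℤ) + 1) : ℤ) : ℝ)) :=
    summable_of_ne_finset_zero (s := Finset.range K) e2
  have h := tsum_of_nat_of_neg_add_one (f := fun k : ℤ => f (k : ℝ)) s1 s2
  rw [h, tsum_eq_sum e1, tsum_eq_sum e2, Finset.sum_range_succ', Finset.sum_add_distrib]
  have r1 : ∀ F : ℕ → ℝ, ∑ k ∈ Finset.Icc 1 K, F k = ∑ k ∈ Finset.range K, F (k + 1) := by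
    intro F
    rw [← Finset.Ico_add_one_right_eq_Icc, Finset.sum_Ico_eq_sum_range]
    simp only [Nat.add_sub_cancel]
    exact Finset.sum_congr rfl fun k _ => by rw [add_comm]
  rw [r1, r1]
  push_cast
  ring

end FinAux

theorem pFin (h1 : SUp) (h2 : SDiag) : SPC := by
  intro f hfc hfs δ hδ
  obtain ⟨R, hR0, hR⟩ := hfs.exists_pos_le_norm
  have hK : ∀ x : ℝ, ((⌈R⌉₊ : ℕ) : ℝ) ≤ |x| → f x = 0 := fun x hx =>
    hR x ((Nat.le_ceil R).trans hx)
  set K : ℕ := ⌈R⌉₊ with hKdef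
  obtain ⟨n1, T1, hT1, hu⟩ := h1 (fun x => f x + f (-x)) K
    (hfc.add (hfc.comp continuous_neg)) (fun x hx => by
      show f x + f (-x) = 0
      rw [hK x hx, hK (-x) (by rwa [abs_neg]), add_zero]) (δ / 2) (by positivity)
  obtain ⟨n2, T2, hT2, hd⟩ := h2 (δ / (2 * (|f 0| + 1))) (by positivity)
  refine ⟨max n1 n2, max T1 T2, le_trans hT1 (le_max_left _ _), ?_⟩
  intro T n hT hn hnl Z hZ
  have a1 := hu T n (le_trans (le_max_left _ _) hT) (le_trans (le_max_left _ _) hn) hnl Z hZ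
  have a2 := hd T n (le_trans (le_max_right _ _) hT) (le_trans (le_max_right _ _) hn) hnl Z hZ
  have hT0 : (2 : ℝ) ≤ T := (hT1.trans (le_max_left _ _)).trans hT
  have hTL : 0 ≤ T * Real.log T := mul_nonneg (by linarith) (Real.log_nonneg (by linarith))
  rw [FinAux.split Z (mu n) f (Real.log T) (2 * Real.pi), FinAux.tsumZ f K hK]
  set A := ∑ s ∈ Z, mu n s * ∑ z ∈ Z with z.im = s.im, mu n z with hA
  set B := ∑ s ∈ Z, mu n s * ∑ z ∈ Z with s.im < z.im,
    mu n z * (f ((z.im - s.im) * Real.log T / (2 * Real.pi)) +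
      f (-((z.im - s.im) * Real.log T / (2 * Real.pi)))) with hB
  set M := ∑ s ∈ Z, mu n s with hM
  set G := ∑ k ∈ Finset.Icc 1 K, (f ((k : ℕ) : ℝ) + f (-((k : ℕ) : ℝ))) with hG
  have e : f 0 * A + B - (f 0 + G) * M = f 0 * (A - M) + (B - G * M) := by ring
  rw [e]
  have b1 : |f 0 * (A - M)| ≤ δ / 2 * (T * Real.log T) := by
    rw [abs_mul]
    calc |f 0| * |A - M| ≤ |f 0| * (δ / (2 * (|f 0| + 1)) * (T * Real.log T)) :=
          mul_le_mul_of_nonneg_left a2 (abs_nonneg _)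
      _ = (|f 0| / (|f 0| + 1)) * (δ / 2 * (T * Real.log T)) := by
          field_simp
      _ ≤ 1 * (δ / 2 * (T * Real.log T)) := by
          apply mul_le_mul_of_nonneg_right
          · rw [div_le_one (by positivity)]
            linarith
          · positivity
      _ = _ := by ring
  calc |f 0 * (A - M) + (B - G * M)| ≤ |f 0 * (A - M)| + |B - G * M| := abs_add_le _ _
    _ ≤ δ / 2 * (T * Real.log T) + δ / 2 * (T * Real.log T) := add_le_add b1 a1
    _ = _ := by ring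

end Pool.Agent.H24R2.PC
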