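import Pool.Agent.H24R2.PC.Spec

set_option autoImplicit false

/-! LOC: the zeros above a zero whose upper neighbours are all regular. -/

namespace Pool.Agent.H24R2.PC

open Complex Filter Topology MeasureTheory Set
open Pool.Agent.H24R2.JP (XX HH Om)
open Pool.Agent.H24R2.DZ (reg SUnit)

namespace LOCAux

theorem diffXX : Differentiable ℂ XX := by
  unfold XX
  have h := differentiable_completedZeta₀
  have h2 : Differentiable ℂ (fun z : ℂ => completedRiemannZeta₀ (1 / 2 + z)) :=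
    h.comp (by fun_prop)
  fun_prop

theorem diffIter (n : ℕ) : Differentiable ℂ (iteratedDeriv n XX) := by
  have h : ContDiff ℂ ⊤ XX := diffXX.contDiff
  exact h.differentiable_iteratedDeriv n (by exact_mod_cast WithTop.coe_lt_top _)

theorem mu_one (n : ℕ) (z : ℂ) (h0 : iteratedDeriv n XX z = 0)
    (h1 : iteratedDeriv (n + 1) XX z ≠ 0) : mu n z = 1 := by
  have han : AnalyticAt ℂ (iteratedDeriv n XX) z := (diffIter n).analyticAt z
  have h2 : deriv (iteratedDeriv n XX) z ≠ 0 := by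
    rw [← iteratedDeriv_succ]
    exact h1
  have h3 : analyticOrderAt (iteratedDeriv n XX) z = 1 :=
    han.analyticOrderAt_eq_one_of_zero_deriv_ne_zero h0 h2
  unfold mu analyticOrderNatAt
  rw [h3]
  simp

end LOCAux

theorem pLoc (h1 : SChain) : SLoc := by
  intro g K ε δ n L s Z hε hεK hL hg0 hgc hs hreg hZ0 hZ
  have hpi := Real.pi_pos
  set u : ℝ := 2 * Real.pi / L with hu
  have hupos : 0 < u := by rw [hu]; positivity
  have hK0 : (0 : ℝ) ≤ K := Nat.cast_nonneg K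
  have hε1 : ε ≤ 1 / 8 := by nlinarith
  have hεK1 : ε * K ≤ 1 / 4 := by nlinarith
  obtain ⟨σ, hσ, hinj, hall⟩ := h1 {z | iteratedDeriv n XX z = 0} u ε K s hupos hε hεK hs (by
    intro z hz hz1 hz2
    obtain ⟨-, -, h3, z', h4, -, h5, h6⟩ := hreg z hz hz1 hz2
    exact ⟨fun w hw hne => h3 w hw hne, z', h4, h5, h6⟩)
  have hx : ∀ x : ℝ, x * L / (2 * Real.pi) = x / u := by
    intro x
    rw [hu]
    field_simp
  have hσ2 : ∀ k : ℕ, 1 ≤ k → k ≤ K → s.im < (σ k).im ∧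
      (σ k).im ≤ s.im + ((K : ℝ) + 2) * u ∧ |((σ k).im - s.im) / u - k| ≤ ε * K := by
    intro k hk1 hk2
    obtain ⟨-, h3⟩ := hσ k hk1 hk2
    have hk1' : (1 : ℝ) ≤ k := by exact_mod_cast hk1
    have hk2' : (k : ℝ) ≤ K := by exact_mod_cast hk2
    have h4 := abs_le.1 h3
    have h5 : ε * k * u ≤ 1 / 8 * k * u := by gcongr
    have h6 : ε * k * u ≤ 1 / 4 * u := by
      have : ε * k ≤ ε * K := by gcongr
      nlinarith
    have h7 : (k : ℝ) * u ≤ K * u := by gcongr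
    have h8 : 1 * u ≤ (k : ℝ) * u := by gcongr
    refine ⟨by nlinarith, by nlinarith, ?_⟩
    have h9 : ((σ k).im - s.im) / u - k = ((σ k).im - s.im - k * u) / u := by
      field_simp
    rw [h9, abs_div, abs_of_pos hupos, div_le_iff₀ hupos]
    refine h3.trans ?_
    gcongr
  have hregσ : ∀ k : ℕ, 1 ≤ k → k ≤ K → reg ε L n (σ k) := by
    intro k hk1 hk2
    obtain ⟨h3, h4, -⟩ := hσ2 k hk1 hk2
    exact hreg (σ k) (hσ k hk1 hk2).1 h3.le h4
  set A : Finset ℂ := (Finset.Icc 1 K).image σ with hA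
  have hsub : A ⊆ Z.filter (fun z => s.im < z.im) := by
    intro z hz
    rw [hA, Finset.mem_image] at hz
    obtain ⟨k, hk, rfl⟩ := hz
    rw [Finset.mem_Icc] at hk
    obtain ⟨h3, h4, -⟩ := hσ2 k hk.1 hk.2
    rw [Finset.mem_filter]
    exact ⟨hZ (σ k) (hσ k hk.1 hk.2).1 h3 h4, h3⟩
  have hsum1 : ∑ z ∈ A, mu n z * g ((z.im - s.im) * L / (2 * Real.pi)) =
      ∑ z ∈ Z.filter (fun z => s.im < z.im), mu n z * g ((z.im - s.im) * L / (2 * Real.pi)) := by
    refine Finset.sum_subset hsub ?_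
    intro z hz hzA
    rw [Finset.mem_filter] at hz
    have h3 : s.im + K * u < z.im := by
      by_contra hcon
      push Not at hcon
      obtain ⟨k, hk1, hk2, rfl⟩ := hall z (hZ0 z hz.1) hz.2 hcon
      exact hzA (Finset.mem_image.2 ⟨k, Finset.mem_Icc.2 ⟨hk1, hk2⟩, rfl⟩)
    have h4 : (K : ℝ) < (z.im - s.im) * L / (2 * Real.pi) := by
      rw [hx, lt_div_iff₀ hupos]
      linarith
    rw [hg0 _ h4, mul_zero]
  have hsum2 : ∑ z ∈ A, mu n z * g ((z.im - s.im) * L / (2 * Real.pi)) =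
      ∑ k ∈ Finset.Icc 1 K, g (((σ k).im - s.im) / u) := by
    rw [hA, Finset.sum_image]
    · refine Finset.sum_congr rfl fun k hk => ?_
      rw [Finset.mem_Icc] at hk
      obtain ⟨-, h4, -⟩ := hregσ k hk.1 hk.2
      rw [LOCAux.mu_one n (σ k) (hσ k hk.1 hk.2).1 h4, one_mul, hx]
    · intro i hi j hj hij
      rw [Finset.mem_coe, Finset.mem_Icc] at hi hj
      exact hinj i j hi.1 hi.2 hj.1 hj.2 hij
  rw [← hsum1, hsum2, ← Finset.sum_sub_distrib]
  refine (Finset.abs_sum_le_sum_abs _ _).trans ?_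
  have h5 : ∀ k ∈ Finset.Icc 1 K, |g (((σ k).im - s.im) / u) - g k| ≤ δ := by
    intro k hk
    rw [Finset.mem_Icc] at hk
    exact hgc _ _ (hσ2 k hk.1 hk.2).2.2
  refine (Finset.sum_le_sum h5).trans ?_
  simp

end Pool.Agent.H24R2.PC
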