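import Pool.Agent.H24R2.PC.SpecN

set_option autoImplicit false

namespace Pool.Agent.H24R2.PC

open Complex Filter Topology MeasureTheory Set
open Pool.Agent.H24R2.JP (XX HH Om)
open Pool.Agent.H24R2.DZ

namespace LowAux

lemma diffXX : Differentiable ℂ XX := by
  have h : Differentiable ℂ completedRiemannZeta₀ := differentiable_completedZeta₀
  unfold JP.XX
  refine Differentiable.add_const _ (Differentiable.mul (by fun_prop) ?_)
  exact h.comp (by fun_prop)

lemma iter_aff (f : ℂ → ℂ) (hf : Differentiable ℂ f) (n : ℕ) (c r z : ℂ) :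
    iteratedDeriv n (fun z => f (c + r * z)) z = r ^ n * iteratedDeriv n f (c + r * z) := by
  have hc : ContDiff ℂ n f := hf.contDiff
  have h1 : ContDiff ℂ n (fun w => f (c + w)) := hc.comp (contDiff_const.add contDiff_id)
  have h2 := iteratedDeriv_comp_const_mul h1 r
  have h3 := iteratedDeriv_comp_const_add n f c
  have h4 : iteratedDeriv n (fun z => f (c + r * z)) z =
      r ^ n * iteratedDeriv n (fun w => f (c + w)) (r * z) := by
    simpa using congrFun h2 z
  rw [h4, h3]

/-- the covering estimate -/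
theorem cover (Z : Finset ℂ) (E : Set ℝ) (T T' v V : ℝ) (hv : 0 ≤ v) (hV : 0 ≤ V)
    (hE : volume E ≤ ENNReal.ofReal V)
    (h : ∀ t : ℝ, T < t → t ≤ T' → t ∈ E ∨ ∃ w ∈ Z, w.im - v ≤ t ∧ t ≤ w.im) :
    T' - T ≤ V + Z.card * v := by
  have h1 : volume (Ioc T T') ≤ volume E + volume (⋃ w ∈ Z, Icc (w.im - v) w.im) := by
    refine (measure_mono ?_).trans (measure_union_le _ _)
    intro t ht
    rcases h t ht.1 ht.2 with h2 | ⟨w, hw, h2⟩
    · exact Or.inl h2
    · refine Or.inr ?_
      simp only [mem_iUnion, mem_Icc]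
      exact ⟨w, hw, h2⟩
  have h2 : volume (⋃ w ∈ Z, Icc (w.im - v) w.im) ≤ ENNReal.ofReal (Z.card * v) := by
    refine (measure_biUnion_finset_le _ _).trans ?_
    have h3 : ∀ w ∈ Z, volume (Icc (w.im - v) w.im) = ENNReal.ofReal v := by
      intro w _
      rw [Real.volume_Icc]
      congr 1
      ring
    rw [Finset.sum_congr rfl h3, Finset.sum_const, nsmul_eq_mul,
      ENNReal.ofReal_mul (Nat.cast_nonneg _)]
    simp
  rw [Real.volume_Ioc] at h1
  have h4 : ENNReal.ofReal (T' - T) ≤ ENNReal.ofReal (V + Z.card * v) := by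
    refine h1.trans ((add_le_add hE h2).trans ?_)
    rw [ENNReal.ofReal_add hV (by positivity)]
  exact (ENNReal.ofReal_le_ofReal_iff (by positivity)).1 h4

end LowAux

open LowAux in
theorem pLow (h1 : SC1) (h2 : SC2) (h3 : SEx) (h4 : SOne) : SLow := by
  classical
  intro δ hδ
  set ε : ℝ := min (1 / 2) (δ / 4) with hε
  have hε0 : 0 < ε := lt_min (by norm_num) (by positivity)
  have hε1 : ε ≤ 1 / 2 := min_le_left _ _
  have hε2 : ε ≤ δ / 4 := min_le_right _ _
  obtain ⟨η, nE, hη, hnE, hEx⟩ := h3 ε hε0 hε1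
  obtain ⟨η1, ε1, hη1, hε1', hG⟩ := h2 η hη
  obtain ⟨θ, c, C, a01, T01, hθ, hθ', hc, hC, ha01, hT01, hM⟩ := h1 η1 ε1 hη1 hε1'
  obtain ⟨a02, T02, hN⟩ := hG θ hθ hθ'
  have hlim : Tendsto (fun n : ℕ => C * Real.exp (-(c * n))) atTop (𝓝 0) := by
    have h2 : Tendsto (fun n : ℕ => c * (n : ℝ)) atTop atTop :=
      tendsto_natCast_atTop_atTop.const_mul_atTop hc
    have h3 := (Real.tendsto_exp_neg_atTop_nhds_zero.comp h2).const_mul C
    rw [mul_zero] at h3
    exact h3
  obtain ⟨n1, hn1⟩ := eventually_atTop.1 (hlim.eventually_lt_const (show (0 : ℝ) < δ / 4 by positivity))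
  refine ⟨max (max nE 1) (max (max ⌈a01⌉₊ ⌈a02⌉₊) n1),
    max (max T01 T02) (max (Real.exp 1000) (8 * Real.pi / δ)), ?_, ?_⟩
  · exact hT01.trans ((le_max_left _ _).trans (le_max_left _ _))
  intro T n hT hn hnL Z hZ
  have hTa : T01 ≤ T := ((le_max_left _ _).trans (le_max_left _ _)).trans hT
  have hTb : T02 ≤ T := ((le_max_right _ _).trans (le_max_left _ _)).trans hT
  have hTc : Real.exp 1000 ≤ T := ((le_max_left _ _).trans (le_max_right _ _)).trans hT
  have hTd : 8 * Real.pi / δ ≤ T := ((le_max_right _ _).trans (le_max_right _ _)).trans hT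
  have hna : nE ≤ n := ((le_max_left _ _).trans (le_max_left _ _)).trans hn
  have hnb : 1 ≤ n := ((le_max_right _ _).trans (le_max_left _ _)).trans hn
  have hnc : a01 ≤ n := Nat.ceil_le.1
    ((((le_max_left _ _).trans (le_max_left _ _)).trans (le_max_right _ _)).trans hn)
  have hnd : a02 ≤ n := Nat.ceil_le.1
    ((((le_max_right _ _).trans (le_max_left _ _)).trans (le_max_right _ _)).trans hn)
  have hne : n1 ≤ n := ((le_max_right _ _).trans (le_max_right _ _)).trans hn
  have hT0 : 0 < T := (Real.exp_pos _).trans_le hTc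
  have hL : 1000 ≤ Real.log T := (Real.le_log_iff_exp_le hT0).2 hTc
  have hnR : (1 : ℝ) ≤ n := by exact_mod_cast hnb
  have hpi := Real.pi_pos
  set L : ℝ := Real.log T with hLdef
  have hL0 : 0 < L := by linarith
  set u : ℝ := 2 * Real.pi / L with hu
  have hu0 : 0 < u := by positivity
  have hr : ra T n * (Real.pi / n) = u := by
    rw [ra, ← hLdef, hu]
    have : (n : ℝ) ≠ 0 := by positivity
    field_simp
  have hr0 : 0 < ra T n := by
    rw [ra, ← hLdef]; positivity
  have hnL2 : (n : ℝ) ≤ L / 200 := by linarith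
  -- zeros above good points
  have key : ∀ t : ℝ, T < t → t ≤ 2 * T - (1 + ε) * u →
      t ∈ {t0 : ℝ | T / 2 ≤ t0 ∧ t0 ≤ 3 * T ∧ ¬ Gd θ η1 ε1 T n t0} ∨
        ∃ w ∈ Z, w.im - (1 + ε) * u ≤ t ∧ t ≤ w.im := by
    intro t ht1 ht2
    have hpos : 0 < (1 + ε) * u := by positivity
    by_cases hg : Gd θ η1 ε1 T n t
    · right
      have hNN := hN T n t hTb hnd hnL2 (by linarith) (by linarith) hg
      obtain ⟨y, hy0, hy1, hy⟩ := hEx n _ hna hNN 0 (by norm_num)
      rw [iter_aff XX diffXX] at hy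
      have hrn : ((ra T n : ℝ) : ℂ) ^ n ≠ 0 :=
        pow_ne_zero _ (by exact_mod_cast hr0.ne')
      have hz := (mul_eq_zero.1 hy).resolve_left hrn
      have him : (I * (t : ℂ) + (ra T n : ℂ) * (I * (y : ℂ))).im = t + ra T n * y := by
        simp
      have hy2 : ra T n * y ≤ (1 + ε) * u := by
        rw [← hr]
        have := mul_le_mul_of_nonneg_left hy1 hr0.le
        linarith
      have hy3 : 0 ≤ ra T n * y := mul_nonneg hr0.le hy0
      refine ⟨_, (hZ _).2 ⟨hz, ?_, ?_⟩, ?_, ?_⟩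
      · rw [him]; linarith
      · rw [him]; linarith
      · rw [him]; linarith
      · rw [him]; linarith
    · left
      exact ⟨by linarith, by linarith, hg⟩
  have hcov := cover Z _ T (2 * T - (1 + ε) * u) ((1 + ε) * u) (C * T * Real.exp (-(c * n)))
    (by positivity) (by positivity) (hM T n hTa hnc hnL2) key
  -- card and multiplicities
  have hcard : (Z.card : ℝ) ≤ ∑ s ∈ Z, mu n s := by
    have : ∑ s ∈ Z, (1 : ℝ) ≤ ∑ s ∈ Z, mu n s :=
      Finset.sum_le_sum fun s hs => h4 n s ((hZ s).1 hs).1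
    simpa using this
  refine le_trans ?_ hcard
  -- arithmetic
  set X : ℝ := T * L / (2 * Real.pi) with hX
  have hXu : X * u = T := by
    rw [hX, hu]
    field_simp
  have hX0 : 0 < X := by positivity
  have hXδ : 4 ≤ X * δ := by
    have e1 : 8 * Real.pi ≤ T * δ := (div_le_iff₀ hδ).1 hTd
    have e2 : X * δ * (2 * Real.pi) = T * δ * L := by
      rw [hX]
      field_simp
    have e3 : 8 * Real.pi * 1 ≤ T * δ * L :=
      mul_le_mul e1 (by linarith) (by norm_num) (by positivity)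
    by_contra hcon
    push Not at hcon
    have e4 : X * δ * (2 * Real.pi) < 4 * (2 * Real.pi) :=
      mul_lt_mul_of_pos_right hcon (by positivity)
    linarith
  have hκ := hn1 n hne
  set κ : ℝ := C * Real.exp (-(c * n)) with hκdef
  have hκ0 : 0 ≤ κ := by positivity
  set N : ℝ := (Z.card : ℝ) with hNdef
  have hN0 : 0 ≤ N := Nat.cast_nonneg _
  have f1 : C * T * Real.exp (-(c * n)) = κ * (X * u) := by
    rw [hXu, hκdef]; ring
  rw [f1] at hcov
  have f2 : (X - (1 + ε)) * u ≤ (κ * X + N * (1 + ε)) * u := by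
    have e1 : (X - (1 + ε)) * u = 2 * T - (1 + ε) * u - T := by
      rw [sub_mul, hXu]; ring
    have e2 : (κ * X + N * (1 + ε)) * u = κ * (X * u) + N * ((1 + ε) * u) := by ring
    rw [e1, e2]
    exact hcov
  have f3 : X - (1 + ε) ≤ κ * X + N * (1 + ε) := le_of_mul_le_mul_right f2 hu0
  by_contra hcon
  push Not at hcon
  -- `N < (1 - δ) X`
  have hδ1 : 0 < 1 - δ := by
    by_contra h
    push Not at h
    have : (1 - δ) * X ≤ 0 := mul_nonpos_of_nonpos_of_nonneg h hX0.le
    linarith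
  have g1 : N * (1 + ε) ≤ (1 - δ) * X * (1 + ε) :=
    mul_le_mul_of_nonneg_right hcon.le (by linarith)
  have g2 : (1 - δ) * X * (1 + ε) ≤ (1 - δ + ε) * X := by
    have : 0 ≤ δ * ε * X := by positivity
    nlinarith
  have g3 : κ * X ≤ δ / 4 * X := mul_le_mul_of_nonneg_right hκ.le hX0.le
  have g4 : ε * X ≤ δ / 4 * X := mul_le_mul_of_nonneg_right hε2 hX0.le
  nlinarith

end Pool.Agent.H24R2.PC
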