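import Pool.Agent.H24R2.PC.Spec
import Pool.Agent.H24R2.DZ.Fin
import Pool.Agent.H24R2.JP.All2

set_option autoImplicit false

namespace Pool.Agent.H24R2.PC

open Complex Filter Topology MeasureTheory Set
open Pool.Agent.H24R2.JP (XX HH Om)
open Pool.Agent.H24R2.DZ

theorem pOne (h : SStrip) : SOne := by
  intro n s hs
  have hd : Differentiable ℂ (iteratedDeriv n XX) := FinAux.diffIter n
  have hA : AnalyticOnNhd ℂ (iteratedDeriv n XX) univ := fun z _ => hd.analyticAt z
  have hne : iteratedDeriv n XX 1 ≠ 0 := by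
    intro h1
    have := h n 1 h1
    norm_num at this
  have h1 : analyticOrderAt (iteratedDeriv n XX) 1 ≠ ⊤ := by
    rw [(hd.analyticAt 1).analyticOrderAt_eq_zero.2 hne]
    simp
  have htop : analyticOrderAt (iteratedDeriv n XX) s ≠ ⊤ :=
    hA.analyticOrderAt_ne_top_of_isPreconnected isPreconnected_univ (mem_univ 1) (mem_univ s) h1
  have h0 : analyticOrderAt (iteratedDeriv n XX) s ≠ 0 := by
    intro h2
    exact (hd.analyticAt s).analyticOrderAt_eq_zero.1 h2 hs
  have h3 : analyticOrderNatAt (iteratedDeriv n XX) s ≠ 0 := by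
    unfold analyticOrderNatAt
    intro h4
    rcases ENat.toNat_eq_zero.1 h4 with h5 | h5
    · exact h0 h5
    · exact htop h5
  unfold mu
  exact_mod_cast Nat.one_le_iff_ne_zero.2 h3

end Pool.Agent.H24R2.PC
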