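import Pool.Agent.H24R2.PC.Spec
import Pool.Agent.H24R2.DZ.Mid

set_option autoImplicit false

/-!
# Irregular zeros weighted by the squared number of their neighbours
-/

namespace Pool.Agent.H24R2.PC

open Complex Filter Topology MeasureTheory Set
open Pool.Agent.H24R2.JP (XX HH Om)

open Pool.Agent.H24R2.DZ Pool.Agent.H24R2.DZ.MidAux

theorem pPair (h1 : SC1) (h2 : SC2) (h3 : SPtA) (h4 : SPtC) (h5 : SCount) (h6 : SUnit) (h7 : SCir)
    (h8 : SStrip) (h9 : SFar) : SPair := by
  classical
  intro ε D hε0 hε2 hD0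
  obtain ⟨ηA, hηA, hA⟩ := h3
  obtain ⟨ηB, nB, hηB, hnB, hB⟩ := h4 ε hε0 hε2
  obtain ⟨ηC, CC, hηC, hCC, hC⟩ := h5
  obtain ⟨CU, TU, hCU, hTU, hU⟩ := h6
  obtain ⟨cF, CF, TF, hcF, hCF, hTF, hF⟩ := h9
  set η : ℝ := min ηA (min ηB ηC) with hη
  have hη0 : 0 < η := lt_min hηA (lt_min hηB hηC)
  have hηA' : η ≤ ηA := min_le_left _ _
  have hηB' : η ≤ ηB := (min_le_right _ _).trans (min_le_left _ _)
  have hηC' : η ≤ ηC := (min_le_right _ _).trans (min_le_right _ _)
  obtain ⟨η1, ε1, hη1, hε1, hG⟩ := h2 η hη0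
  obtain ⟨θ, c1, C1, a01, T01, hθ, hθ', hc1, hC1, ha01, hT01, hM⟩ := h1 η1 ε1 hη1 hε1
  obtain ⟨a02, T02, hN⟩ := hG θ hθ hθ'
  -- constants
  set C3 : ℝ := max (2 * CC) (800 * CU) with hC3
  have hC30 : 0 < C3 := lt_of_lt_of_le (by positivity) (le_max_left _ _)
  have hc12 : 0 < c1 / 2 := by positivity
  set c : ℝ := min (c1 / 2) cF with hc
  have hc0 : 0 < c := lt_min hc12 hcF
  have hcc1 : c ≤ c1 / 2 := min_le_left _ _
  have hccF : c ≤ cF := min_le_right _ _
  set q : ℝ := 1 - Real.exp (-(c1 / 2)) with hq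
  have hq0 : 0 < q := by
    have : Real.exp (-(c1 / 2)) < 1 := by rw [Real.exp_lt_one_iff]; linarith
    linarith
  -- `(n + 9) e^{-400 c n} ≤ K e^{-c n}`
  obtain ⟨K, hK0, hK⟩ : ∃ K : ℝ, 0 < K ∧ ∀ n : ℕ, ((n : ℝ) + 11) * Real.exp (-(200 * cF * n)) ≤
      K * Real.exp (-(c * n)) := by
    refine ⟨11 + 1 / (199 * cF), by positivity, fun n => ?_⟩
    have e1 : Real.exp (-(200 * cF * n)) = Real.exp (-(199 * cF * n)) * Real.exp (-(cF * n)) := by
      rw [← Real.exp_add]; congr 1; ring
    have e2 : Real.exp (-(cF * n)) ≤ Real.exp (-(c * n)) := by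
      apply Real.exp_le_exp.2
      have := mul_le_mul_of_nonneg_right hccF (Nat.cast_nonneg (α := ℝ) n)
      linarith
    have e3 : (n : ℝ) * Real.exp (-(199 * cF * n)) ≤ 1 / (199 * cF) := by
      rw [le_div_iff₀ (by positivity)]
      have e4 : 199 * cF * n ≤ Real.exp (199 * cF * n) := by
        have := Real.add_one_le_exp (199 * cF * n)
        linarith
      have e5 : Real.exp (-(199 * cF * n)) * Real.exp (199 * cF * n) = 1 := by
        rw [← Real.exp_add]; simp
      have e6 := Real.exp_pos (-(199 * cF * n))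
      nlinarith
    have e7 : Real.exp (-(199 * cF * n)) ≤ 1 := by
      rw [Real.exp_le_one_iff]
      have : 0 ≤ 199 * cF * n := by positivity
      linarith
    rw [e1, ← mul_assoc]
    have e8 : ((n : ℝ) + 11) * Real.exp (-(199 * cF * n)) ≤ 11 + 1 / (199 * cF) := by
      nlinarith
    calc ((n : ℝ) + 11) * Real.exp (-(199 * cF * n)) * Real.exp (-(cF * n))
        ≤ (11 + 1 / (199 * cF)) * Real.exp (-(cF * n)) :=
          mul_le_mul_of_nonneg_right e8 (Real.exp_pos _).le
      _ ≤ _ := mul_le_mul_of_nonneg_left e2 (by positivity)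
  -- the constants in the result
  refine ⟨c, 100 * C1 * C3 * (C3 ^ 2 * (8 / c1 ^ 2)) / q + CF * K * (8 * CU ^ 3 * (48 / cF ^ 3)),
    max (max (max T01 T02) (max TU TF)) (Real.exp 1000),
    max (max nB 1) (max (max ⌈a01⌉₊ ⌈100 * D⌉₊) ⌈a02⌉₊), hc0, by positivity, ?_, ?_⟩
  · exact le_trans hT01 (le_trans (le_max_left _ _) (le_trans (le_max_left _ _) (le_max_left _ _)))
  intro T n hT hn hnL S Z hS hZ
  have hT1 : T01 ≤ T := le_trans (le_trans (le_max_left _ _) (le_trans (le_max_left _ _) (le_max_left _ _))) hT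
  have hT2 : T02 ≤ T := le_trans (le_trans (le_max_right _ _) (le_trans (le_max_left _ _) (le_max_left _ _))) hT
  have hT3 : TU ≤ T := le_trans (le_trans (le_max_left _ _) (le_trans (le_max_right _ _) (le_max_left _ _))) hT
  have hT4 : TF ≤ T := le_trans (le_trans (le_max_right _ _) (le_trans (le_max_right _ _) (le_max_left _ _))) hT
  have hT5 : Real.exp 1000 ≤ T := le_trans (le_max_right _ _) hT
  have hn1 : nB ≤ n := le_trans (le_trans (le_max_left _ _) (le_max_left _ _)) hn
  have hn2 : 1 ≤ n := le_trans (le_trans (le_max_right _ _) (le_max_left _ _)) hn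
  have hn3 : a01 ≤ n := Nat.ceil_le.1 (le_trans (le_trans (le_trans (le_max_left _ _) (le_max_left _ _))
    (le_max_right _ _)) hn)
  have hn5 : 100 * D ≤ n := Nat.ceil_le.1 (le_trans (le_trans (le_trans (le_max_right _ _) (le_max_left _ _))
    (le_max_right _ _)) hn)
  have hn4 : a02 ≤ n := Nat.ceil_le.1 (le_trans (le_trans (le_max_right _ _) (le_max_right _ _)) hn)
  have hnR : (1 : ℝ) ≤ n := by exact_mod_cast hn2
  have hT0 : 0 < T := lt_of_lt_of_le (Real.exp_pos _) hT5
  set L : ℝ := Real.log T with hL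
  have hL0 : 1000 ≤ L := by
    rw [hL, Real.le_log_iff_exp_le hT0]; exact hT5
  have hT1000 : 1000 ≤ T := by
    have := Real.add_one_le_exp (1000 : ℝ)
    linarith
  have hT2' : 2 ≤ T := by linarith
  -- the largest scale
  obtain ⟨J, hJ1, hJ2⟩ := exists_nat_pow_near (x := L / 200 / n) (y := 2)
    (by rw [le_div_iff₀ (by linarith)]; linarith) (by norm_num)
  rw [le_div_iff₀ (by linarith)] at hJ1
  rw [div_lt_iff₀ (by linarith)] at hJ2
  have hJ3 : L / 400 < 2 ^ J * n := by
    rw [pow_succ] at hJ2; linarith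
  -- abbreviations
  set A : ℕ → ℝ := fun j => 2 ^ j * n with hAdef
  have hA0 : ∀ j, (n : ℝ) ≤ A j := by
    intro j
    have : (1 : ℝ) ≤ 2 ^ j := one_le_pow₀ (by norm_num)
    simp only [hAdef]
    nlinarith
  have hA1 : ∀ j, 1 ≤ A j := fun j => hnR.trans (hA0 j)
  have hAJ : ∀ j, j ≤ J → A j ≤ L / 200 := by
    intro j hj
    have : (2 : ℝ) ^ j ≤ 2 ^ J := pow_le_pow_right₀ (by norm_num) hj
    simp only [hAdef]
    nlinarith
  have hAs : ∀ j, A (j + 1) = 2 * A j := by
    intro j; simp only [hAdef]; rw [pow_succ]; ring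
  have hra : ∀ j, ra T (A j) = 2 * A j / L := by
    intro j; rw [ra, ← hL]; field_simp
  have hra0 : ∀ j, 0 < ra T (A j) := by
    intro j; rw [hra]; have := hA1 j; positivity
  have hraJ : ∀ j, j ≤ J → ra T (A j) ≤ 1 / 100 := by
    intro j hj
    rw [hra, div_le_iff₀ (by linarith)]
    have := hAJ j hj
    linarith
  set w : ℕ → ℝ := fun j => ra T (A j) / 200 with hw
  have hw0 : ∀ j, 0 < w j := fun j => by simp only [hw]; have := hra0 j; positivity
  have hwJ : ∀ j, j ≤ J → w j ≤ 1 / 100 := by
    intro j hj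
    have := hraJ j hj
    simp only [hw]
    linarith
  have hDw : ∀ j, D / L ≤ w j := by
    intro j
    have h := hA0 j
    have hh : w j = A j / (100 * L) := by simp only [hw]; rw [hra]; field_simp; ring
    rw [hh, div_le_div_iff₀ (by positivity) (by positivity)]
    nlinarith
  -- windows
  set kk : ℕ → ℂ → ℤ := fun j s => ⌊s.im / w j⌋ with hkk
  have hk1 : ∀ j s, (kk j s : ℝ) * w j ≤ s.im := by
    intro j s
    have := Int.floor_le (s.im / w j)
    rw [le_div_iff₀ (hw0 j)] at this
    exact this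
  have hk2 : ∀ j s, s.im < ((kk j s : ℝ) + 1) * w j := by
    intro j s
    have := Int.lt_floor_add_one (s.im / w j)
    rw [div_lt_iff₀ (hw0 j)] at this
    exact this
  set gd : ℕ → ℤ → Prop := fun j k => ∃ t : ℝ, k * w j ≤ t ∧ t < (k + 1) * w j ∧ T / 2 ≤ t ∧ t ≤ 3 * T ∧
    Gd θ η1 ε1 T (A j) t with hgd
  -- good windows give `NN`
  have hgood : ∀ j, j ≤ J → ∀ s : ℂ, gd j (kk j s) → ∃ t' : ℝ, |s.im - t'| ≤ w j ∧
      NN (A j) η (fun z => XX (I * t' + ra T (A j) * z)) := by
    intro j hj s hs
    obtain ⟨t, g1, g2, g3, g4, g5⟩ := hs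
    refine ⟨t, ?_, hN T (A j) t hT2 (hn4.trans (hA0 j)) (hAJ j hj) g3 g4 g5⟩
    rw [abs_le]
    have := hk1 j s
    have := hk2 j s
    constructor <;> linarith
  -- few bad windows
  have hcount : ∀ j, j ≤ J → ∀ Kf : Finset ℤ, (∀ k ∈ Kf, ¬ gd j k ∧ T / 2 ≤ k * w j ∧
      (k + 1) * w j ≤ 3 * T) → (Kf.card : ℝ) * w j ≤ C1 * T * Real.exp (-(c1 * A j)) := by
    intro j hj Kf hKf
    refine card_win Kf (w j) _ _ (hw0 j) (by positivity)
      (hM T (A j) hT1 (hn3.trans (hA0 j)) (hAJ j hj)) ?_
    intro k hk t ht1 ht2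
    obtain ⟨g1, g2, g3⟩ := hKf k hk
    refine ⟨g2.trans ht1, ht2.le.trans g3, fun hg => g1 ⟨t, ht1, ht2, g2.trans ht1, ht2.le.trans g3, hg⟩⟩
  -- windows of our zeros lie in the range
  have hrange : ∀ j, j ≤ J → ∀ s ∈ S, T / 2 ≤ (kk j s : ℝ) * w j ∧ ((kk j s : ℝ) + 1) * w j ≤ 3 * T := by
    intro j hj s hs
    obtain ⟨_, g1, g2⟩ := hS s hs
    have e1 := hk1 j s
    have e2 := hk2 j s
    have e3 := hwJ j hj
    constructor <;> linarith
  -- the classes
  set O : ℂ → ℝ := fun s => (analyticOrderNatAt (iteratedDeriv n XX) s : ℝ) with hO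
  have hO0 : ∀ s, 0 ≤ O s := fun s => Nat.cast_nonneg _
  set Fr : ℂ → Prop := fun s => ∃ z : ℂ, iteratedDeriv n XX z = 0 ∧ |z.im - s.im| ≤ 1 ∧ 1 / 50 ≤ |z.re| with hFr
  set P : ℕ → ℂ → Prop := fun j s => ¬ gd j (kk j s) ∧
    (j < J → gd (j + 1) (kk (j + 1) s) ∧ |s.re| ≤ 5 * ra T (A (j + 1)) ∧
      ∀ z : ℂ, iteratedDeriv n XX z = 0 → |z.im - s.im| ≤ D / L → |z.re| ≤ 5 * ra T (A (j + 1))) with hP
  set N : ℂ → ℝ := fun s => ∑ z ∈ Z with |z.im - s.im| ≤ D / L, O z with hN'
  have hNn : ∀ s, 0 ≤ N s := fun s => Finset.sum_nonneg fun z _ => hO0 z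
  have hclass : ∀ s ∈ S, Fr s ∨ ∃ j ∈ Finset.range (J + 1), P j s := by
    intro s hs
    obtain ⟨hb, _, _⟩ := hS s hs
    by_cases hfar : Fr s
    · exact Or.inl hfar
    right
    have h5J : ¬ 5 * ra T (A J) < |s.re| := by
      intro h
      apply hfar
      refine ⟨s, hb.1, by simp, ?_⟩
      have : 1 / 50 ≤ 5 * ra T (A J) := by
        rw [hra, ← mul_div_assoc, le_div_iff₀ (by linarith)]
        simp only [hAdef]
        linarith
      linarith
    by_cases hall : ∀ j, j ≤ J → gd j (kk j s)
    · exfalso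
      apply hb.2
      refine hB T n J s hT2' hn1 hJ3.le hb.1 ?_ ?_
      · intro j hj
        obtain ⟨t', ht1, ht2⟩ := hgood j hj s (hall j hj)
        exact ⟨t', ht1, NN_mono (by linarith [hA1 j]) hηB' ht2⟩
      · intro z hz1 hz2
        by_contra hz3
        push Not at hz3
        refine hfar ⟨z, hz1, hz2.trans ?_, hz3⟩
        rw [div_le_one (by linarith)]
        linarith [Real.pi_lt_four]
    · push Not at hall
      -- the largest bad scale
      set Bs : Finset ℕ := (Finset.range (J + 1)).filter (fun j => ¬ gd j (kk j s)) with hBs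
      have hne : Bs.Nonempty := by
        obtain ⟨j, hj, hj'⟩ := hall
        exact ⟨j, by rw [hBs, Finset.mem_filter, Finset.mem_range]; exact ⟨by omega, hj'⟩⟩
      set j := Bs.max' hne with hjdef
      have hjm := Bs.max'_mem hne
      rw [← hjdef, hBs, Finset.mem_filter, Finset.mem_range] at hjm
      have hjmax : ∀ i, j < i → i ≤ J → gd i (kk i s) := by
        intro i hi hiJ
        by_contra hg
        have : i ∈ Bs := by rw [hBs, Finset.mem_filter, Finset.mem_range]; exact ⟨by omega, hg⟩
        have := Bs.le_max' i this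
        omega
      refine ⟨j, Finset.mem_range.2 hjm.1, hjm.2, fun hjJ => ⟨hjmax (j + 1) (by omega) (by omega), ?_⟩⟩
      have hnb : ∀ z : ℂ, iteratedDeriv n XX z = 0 → |z.im - s.im| ≤ D / L →
          |z.re| ≤ 5 * ra T (A (j + 1)) := by
        intro z hz1 hz2
        have := hA T n J (j + 1) z hT2' hn2 (by omega) hz1 (by
          intro i hi1 hi2
          obtain ⟨t', ht1, ht2⟩ := hgood i hi2 s (hjmax i (by omega) hi2)
          refine ⟨t', ?_, NN_mono (by linarith [hA1 i]) hηA' ht2⟩
          have e1 := hra0 i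
          have e2 := hDw i
          have e3 : |z.im - t'| ≤ |z.im - s.im| + |s.im - t'| := abs_sub_le _ _ _
          have e4 : w i = ra T (A i) / 200 := rfl
          have e5 : ra T (2 ^ i * n) = ra T (A i) := rfl
          rw [e5]
          linarith)
        rcases this with h | h
        · exact h
        · exfalso
          apply hfar
          refine ⟨z, hz1, hz2.trans ((hDw 0).trans ((hwJ 0 (Nat.zero_le _)).trans (by norm_num))), ?_⟩
          have : 1 / 50 ≤ 5 * ra T (A J) := by
            rw [hra, ← mul_div_assoc, le_div_iff₀ (by linarith)]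
            simp only [hAdef]
            linarith
          have e5 : ra T (2 ^ J * n) = ra T (A J) := rfl
          rw [e5] at h
          linarith
      exact ⟨hnb s hb.1 (by simp; positivity), hnb⟩
  -- the bound for each class
  have hUs : ∀ (t : ℝ) (S' : Finset ℂ), T - 1 ≤ t → t ≤ 2 * T → S' ⊆ S → (∀ s ∈ S', |s.im - t| ≤ 1) →
      ∑ s ∈ S', O s ≤ 2 * CU * L := by
    intro t S' ht1 ht2 hS' ht3
    have e0 : ∀ x : ℝ, T - 1 ≤ x → x ≤ 3 * T → Real.log x ≤ 2 * L := by
      intro x hx1 hx2
      have : x ≤ T ^ 2 := by nlinarith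
      calc Real.log x ≤ Real.log (T ^ 2) := Real.log_le_log (by linarith) this
        _ = 2 * L := by rw [Real.log_pow, hL]; norm_num
    rcases S'.eq_empty_or_nonempty with rfl | ⟨s1, hs1⟩
    · simp; positivity
    -- use the unit window around `max t T`
    have e1 : ∀ s ∈ S', |s.im - max t T| ≤ 1 := by
      intro s hs
      obtain ⟨_, g1, g2⟩ := hS s (hS' hs)
      have := ht3 s hs
      rw [abs_le] at this ⊢
      rcases le_total t T with h | h
      · rw [max_eq_right h]; constructor <;> linarith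
      · rw [max_eq_left h]; exact this
    have e2 : TU ≤ max t T := hT3.trans (le_max_right _ _)
    have e3 : (n : ℝ) ≤ 60 * Real.log (max t T) := by
      have : L ≤ Real.log (max t T) := Real.log_le_log hT0 (le_max_right _ _)
      linarith
    have := hU (max t T) n e2 e3 S' (fun s hs => ⟨e1 s hs, (hS s (hS' hs)).1.1⟩)
    refine this.trans ?_
    have e4 : Real.log (max t T) ≤ 2 * L := e0 _ (by linarith [le_max_right t T]) (by
      rcases le_total t T with h | h
      · rw [max_eq_right h]; linarith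
      · rw [max_eq_left h]; linarith)
    nlinarith
  have hcls : ∀ j ∈ Finset.range (J + 1), ∑ s ∈ S with P j s, O s ≤
      100 * C1 * C3 * T * L * Real.exp (-(c1 * A j)) := by
    intro j hj
    have hjJ : j ≤ J := by have := Finset.mem_range.1 hj; omega
    have hfib := sum_fib (S.filter (P j)) O (kk j) (C3 * A j) ((S.filter (P j)).image (kk j))
      (fun s hs => Finset.mem_image_of_mem _ hs) (by
        intro k hk
        obtain ⟨s1, hs1, hk1'⟩ := Finset.mem_image.1 hk
        rw [Finset.mem_filter] at hs1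
        rcases hjJ.lt_or_eq with hlt | heq
        · -- below the top scale
          obtain ⟨g1, g2⟩ := hs1.2.2 hlt
          obtain ⟨t', ht1, ht2⟩ := hgood (j + 1) (by omega) s1 g1
          have hAR := hC (A (j + 1)) (ra T (A (j + 1))) t' n XX (hA1 _) (hA0 _) (hra0 _)
            Pool.Agent.H24R2.JP.B1h.XX_diff (NN_mono (by linarith [hA1 (j + 1)]) hηC' ht2)
            (((S.filter (P j)).filter (fun s => kk j s = k))) (by
              intro s hs
              rw [Finset.mem_filter, Finset.mem_filter] at hs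
              obtain ⟨⟨hsS, hPs⟩, hks⟩ := hs
              refine ⟨?_, (hS s hsS).1.1⟩
              have e1 : |s.re| ≤ 5 * ra T (A (j + 1)) := (hPs.2 hlt).2.1
              have e2 : |s.im - s1.im| ≤ w j := by
                have a1 := hk1 j s
                have a2 := hk2 j s
                have a3 := hk1 j s1
                have a4 := hk2 j s1
                rw [hks] at a1 a2
                rw [hk1'] at a3 a4
                rw [abs_le]
                constructor <;> linarith
              have e3 : w j ≤ ra T (A (j + 1)) / 4 := by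
                simp only [hw]
                rw [hra, hra, hAs]
                rw [div_div, div_div, div_le_div_iff₀ (by positivity) (by positivity)]
                have := hA1 j
                nlinarith
              have e4 : w (j + 1) ≤ ra T (A (j + 1)) / 4 := by
                simp only [hw]; have := hra0 (j + 1); linarith
              have e5 : |s.im - t'| ≤ |s.im - s1.im| + |s1.im - t'| := abs_sub_le _ _ _
              calc ‖s - I * t'‖ ≤ |(s - I * t').re| + |(s - I * t').im| := Complex.norm_le_abs_re_add_abs_im _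
                _ = |s.re| + |s.im - t'| := by simp
                _ ≤ 6 * ra T (A (j + 1)) := by linarith [hra0 (j + 1)])
          refine hAR.trans ?_
          rw [hAs]
          have : 2 * CC ≤ C3 := le_max_left _ _
          have := hA1 j
          nlinarith
        · -- the top scale
          have := hUs s1.im (((S.filter (P j)).filter (fun s => kk j s = k))) (by
            have := (hS s1 hs1.1).2.1; linarith) ((hS s1 hs1.1).2.2) (by
            intro s hs
            exact (Finset.mem_filter.1 (Finset.mem_filter.1 hs).1).1) (by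
            intro s hs
            have hks := (Finset.mem_filter.1 hs).2
            have a1 := hk1 j s
            have a2 := hk2 j s
            have a3 := hk1 j s1
            have a4 := hk2 j s1
            have a5 := hwJ j hjJ
            rw [hks] at a1 a2
            rw [hk1'] at a3 a4
            rw [abs_le]
            constructor <;> linarith)
          refine this.trans ?_
          have e1 : L / 400 < A j := by rw [heq]; exact hJ3
          have e2 : 800 * CU ≤ C3 := le_max_right _ _
          nlinarith [hA1 j])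
    have hcard := hcount j hjJ ((S.filter (P j)).image (kk j)) (by
      intro k hk
      obtain ⟨s1, hs1, hk1'⟩ := Finset.mem_image.1 hk
      rw [Finset.mem_filter] at hs1
      rw [← hk1']
      exact ⟨hs1.2.1, hrange j hjJ s1 hs1.1⟩)
    refine hfib.trans ?_
    have e1 : w j = A j / (100 * L) := by
      simp only [hw]; rw [hra]; field_simp; ring
    rw [e1] at hcard
    have e2 : (((S.filter (P j)).image (kk j)).card : ℝ) * A j ≤ 100 * L * (C1 * T * Real.exp (-(c1 * A j))) := by
      rw [← mul_div_assoc, div_le_iff₀ (by positivity)] at hcard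
      linarith
    nlinarith
  -- the number of neighbours
  have hNU : ∀ s ∈ S, N s ≤ 2 * CU * L := by
    intro s hs
    obtain ⟨_, g1, g2⟩ := hS s hs
    have e3 : (n : ℝ) ≤ 60 * Real.log s.im := by
      have : L ≤ Real.log s.im := Real.log_le_log hT0 g1.le
      linarith
    have := hU s.im n (hT3.trans g1.le) e3 (Z.filter (fun z => |z.im - s.im| ≤ D / L)) (fun z hz => by
      rw [Finset.mem_filter] at hz
      exact ⟨hz.2.trans ((hDw 0).trans ((hwJ 0 (Nat.zero_le _)).trans (by norm_num))), hZ z hz.1⟩)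
    refine this.trans ?_
    have e4 : Real.log s.im ≤ 2 * L := by
      have : s.im ≤ T ^ 2 := by nlinarith
      calc Real.log s.im ≤ Real.log (T ^ 2) := Real.log_le_log (by linarith) this
        _ = 2 * L := by rw [Real.log_pow, hL]; norm_num
    nlinarith
  have hNP : ∀ j ∈ Finset.range (J + 1), ∀ s ∈ S, P j s → N s ≤ C3 * A j := by
    intro j hj s hs hPs
    have hjJ : j ≤ J := by have := Finset.mem_range.1 hj; omega
    rcases hjJ.lt_or_eq with hlt | heq
    · obtain ⟨g1, _, g2⟩ := hPs.2 hlt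
      obtain ⟨t', ht1, ht2⟩ := hgood (j + 1) (by omega) s g1
      have hAR := hC (A (j + 1)) (ra T (A (j + 1))) t' n XX (hA1 _) (hA0 _) (hra0 _)
        Pool.Agent.H24R2.JP.B1h.XX_diff (NN_mono (by linarith [hA1 (j + 1)]) hηC' ht2)
        (Z.filter (fun z => |z.im - s.im| ≤ D / L)) (by
          intro z hz
          rw [Finset.mem_filter] at hz
          refine ⟨?_, hZ z hz.1⟩
          have e1 := g2 z (hZ z hz.1) hz.2
          have e2 := hDw (j + 1)
          have e4 : w (j + 1) = ra T (A (j + 1)) / 200 := rfl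
          have e5 : |z.im - t'| ≤ |z.im - s.im| + |s.im - t'| := abs_sub_le _ _ _
          calc ‖z - I * t'‖ ≤ |(z - I * t').re| + |(z - I * t').im| := Complex.norm_le_abs_re_add_abs_im _
            _ = |z.re| + |z.im - t'| := by simp
            _ ≤ 6 * ra T (A (j + 1)) := by linarith [hra0 (j + 1), hz.2])
      refine hAR.trans ?_
      rw [hAs]
      have : 2 * CC ≤ C3 := le_max_left _ _
      have := hA1 j
      nlinarith
    · refine (hNU s hs).trans ?_
      have e1 : L / 400 < A j := by rw [heq]; exact hJ3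
      have e2 : 800 * CU ≤ C3 := le_max_right _ _
      nlinarith [hA1 j]
  have hcls2 : ∀ j ∈ Finset.range (J + 1), ∑ s ∈ S with P j s, O s * N s ^ 2 ≤
      100 * C1 * C3 * (C3 ^ 2 * (8 / c1 ^ 2)) * T * L * Real.exp (-(c1 / 2 * A j)) := by
    intro j hj
    have e0 : ∑ s ∈ S with P j s, O s * N s ^ 2 ≤ (∑ s ∈ S with P j s, O s) * (C3 * A j) ^ 2 := by
      rw [Finset.sum_mul]
      refine Finset.sum_le_sum fun s hs => ?_
      rw [Finset.mem_filter] at hs
      exact mul_le_mul_of_nonneg_left (pow_le_pow_left₀ (hNn s) (hNP j hj s hs.1 hs.2) 2) (hO0 s)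
    have e1 := hcls j hj
    have hA1' := hA1 j
    have e2 : A j ^ 2 * Real.exp (-(c1 * A j)) ≤ 8 / c1 ^ 2 * Real.exp (-(c1 / 2 * A j)) := by
      have f1 := Real.quadratic_le_exp_of_nonneg (x := c1 / 2 * A j) (by positivity)
      have f2 : Real.exp (-(c1 * A j)) = Real.exp (-(c1 / 2 * A j)) * Real.exp (-(c1 / 2 * A j)) := by
        rw [← Real.exp_add]; congr 1; ring
      have f3 : Real.exp (-(c1 / 2 * A j)) * Real.exp (c1 / 2 * A j) = 1 := by
        rw [← Real.exp_add]; simp
      have f4 : A j ^ 2 * Real.exp (-(c1 / 2 * A j)) ≤ 8 / c1 ^ 2 := by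
        rw [le_div_iff₀ (by positivity)]
        have f5 : (c1 / 2 * A j) ^ 2 / 2 ≤ Real.exp (c1 / 2 * A j) := by
          have : 0 ≤ c1 / 2 * A j := by positivity
          linarith
        have f6 := Real.exp_pos (-(c1 / 2 * A j))
        have f7 := mul_le_mul_of_nonneg_left f5 f6.le
        rw [f3] at f7
        nlinarith
      rw [f2, ← mul_assoc]
      exact mul_le_mul_of_nonneg_right f4 (Real.exp_pos _).le
    calc ∑ s ∈ S with P j s, O s * N s ^ 2 ≤ (∑ s ∈ S with P j s, O s) * (C3 * A j) ^ 2 := e0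
      _ ≤ (100 * C1 * C3 * T * L * Real.exp (-(c1 * A j))) * (C3 * A j) ^ 2 :=
          mul_le_mul_of_nonneg_right e1 (by positivity)
      _ = (100 * C1 * C3 * T * L * C3 ^ 2) * (A j ^ 2 * Real.exp (-(c1 * A j))) := by ring
      _ ≤ (100 * C1 * C3 * T * L * C3 ^ 2) * (8 / c1 ^ 2 * Real.exp (-(c1 / 2 * A j))) :=
          mul_le_mul_of_nonneg_left e2 (by positivity)
      _ = _ := by ring
  -- far zeros
  have hfar : ∑ s ∈ S with Fr s, O s * N s ^ 2 ≤
      CF * K * (8 * CU ^ 3 * (48 / cF ^ 3)) * T * Real.exp (-(c * n)) := by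
    set Sf := S.filter (fun s => Fr s) with hSf
    -- the ancestors
    have hanc : ∀ s ∈ Sf, ∃ m : ℤ, (∀ t : ℝ, m * (1 : ℝ) ≤ t → t < (m + 1) * (1 : ℝ) →
        t ∈ {t : ℝ | T / 2 ≤ t ∧ t ≤ 3 * T ∧ ∃ z : ℂ, XX z = 0 ∧ 1 / 50 ≤ |z.re| ∧ |z.im - t| ≤ 1}) ∧
        |(m : ℝ) - ⌊s.im⌋| ≤ n / 2 + 3 := by
      intro s hs
      rw [hSf, Finset.mem_filter] at hs
      obtain ⟨hb, g1, g2⟩ := hS s hs.1
      obtain ⟨v, hv1, hv2, hv3⟩ := hs.2
      have hvb : bad n v := ⟨hv1, Or.inl (by
        intro h0
        rw [h0, abs_zero] at hv3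
        linarith)⟩
      obtain ⟨z, hz, g3, g4⟩ := anc h7 h8 n v hvb
      rw [abs_le] at hv2
      refine ⟨⌊z.im⌋, ?_, ?_⟩
      · intro t ht1 ht2
        rw [mul_one] at ht1 ht2
        have f1 := Int.floor_le z.im
        have f2 := Int.lt_floor_add_one z.im
        rw [abs_le] at g4
        have g5 : (n : ℝ) ≤ T / 400 := by
          have : L ≤ T := (Real.log_le_sub_one_of_pos hT0).trans (by linarith)
          linarith
        refine ⟨by linarith, by linarith, z, ?_, hv3.trans g3, ?_⟩
        · have := hz.1; simpa using this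
        · rw [abs_le]; constructor <;> linarith
      · have f1 := Int.floor_le z.im
        have f2 := Int.lt_floor_add_one z.im
        have f3 := Int.floor_le s.im
        have f4 := Int.lt_floor_add_one s.im
        rw [abs_le] at g4 ⊢
        constructor <;> linarith
    choose! m hm1 hm2 using hanc
    -- the number of `m`
    have hcm := card_win (Sf.image m) 1 (CF * T ^ (1 - cF)) _ one_pos (by positivity) (hF T hT4) (by
      intro k hk
      obtain ⟨s, hs, rfl⟩ := Finset.mem_image.1 hk
      exact hm1 s hs)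
    rw [mul_one] at hcm
    have hfib := sum_fib Sf O m (((n : ℝ) + 11) * (2 * CU * L)) (Sf.image m)
      (fun s hs => Finset.mem_image_of_mem _ hs) (by
        intro k hk
        -- split by the integer part of the height
        obtain ⟨h, hh⟩ : ∃ h : ℕ, h = n / 2 := ⟨_, rfl⟩
        obtain ⟨b, hb⟩ : ∃ b : ℤ, b = ((h + 4 : ℕ) : ℤ) := ⟨_, rfl⟩
        have hfib2 := sum_fib (Sf.filter (fun s => m s = k)) O (fun s => ⌊s.im⌋) (2 * CU * L)
          (Finset.Icc (k - b) (k + b)) (by
            intro s hs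
            rw [Finset.mem_filter] at hs
            have g1 := hm2 s hs.1
            rw [hs.2, abs_le] at g1
            have g2 : (n : ℝ) / 2 + 3 < ((b + 1 : ℤ) : ℝ) := by
              have : (n : ℝ) < 2 * ((h : ℝ) + 1) := by
                have : n < 2 * (h + 1) := by omega
                exact_mod_cast this
              rw [hb]; push_cast
              linarith
            rw [Finset.mem_Icc]
            constructor
            · have : (k : ℝ) < ((⌊s.im⌋ + (b + 1) : ℤ) : ℝ) := by push_cast at g2 ⊢; linarith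
              have : k < ⌊s.im⌋ + (b + 1) := by exact_mod_cast this
              omega
            · have : ((⌊s.im⌋ : ℤ) : ℝ) < ((k + (b + 1) : ℤ) : ℝ) := by push_cast at g2 ⊢; linarith
              have : ⌊s.im⌋ < k + (b + 1) := by exact_mod_cast this
              omega) (by
            intro l _
            rcases ((Sf.filter (fun s => m s = k)).filter (fun s => ⌊s.im⌋ = l)).eq_empty_or_nonempty with he | ⟨s1, hs1⟩
            · rw [he]; simp; positivity
            · rw [Finset.mem_filter, Finset.mem_filter, hSf, Finset.mem_filter] at hs1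
              obtain ⟨⟨⟨g1, _⟩, _⟩, g2⟩ := hs1
              obtain ⟨_, g3, g4⟩ := hS s1 g1
              have f1 := Int.floor_le s1.im
              have f2 := Int.lt_floor_add_one s1.im
              rw [g2] at f1 f2
              refine hUs l _ (by linarith) (by linarith) ?_ ?_
              · intro s hs
                rw [Finset.mem_filter, Finset.mem_filter, hSf, Finset.mem_filter] at hs
                exact hs.1.1.1
              · intro s hs
                have g5 := (Finset.mem_filter.1 hs).2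
                have f3 := Int.floor_le s.im
                have f4 := Int.lt_floor_add_one s.im
                rw [g5] at f3 f4
                rw [abs_le]
                constructor <;> linarith)
        refine hfib2.trans (mul_le_mul_of_nonneg_right ?_ (by positivity))
        rw [Int.card_Icc]
        have : (k + b + 1 - (k - b)).toNat = 2 * (h + 4) + 1 := by rw [hb]; omega
        rw [this]
        have : 2 * (h + 4) + 1 ≤ n + 11 := by omega
        exact_mod_cast this)
    have e0 : ∑ s ∈ Sf, O s * N s ^ 2 ≤ (∑ s ∈ Sf, O s) * (2 * CU * L) ^ 2 := by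
      rw [Finset.sum_mul]
      refine Finset.sum_le_sum fun s hs => ?_
      rw [hSf, Finset.mem_filter] at hs
      exact mul_le_mul_of_nonneg_left (pow_le_pow_left₀ (hNn s) (hNU s hs.1) 2) (hO0 s)
    refine e0.trans ?_
    have e1 : T ^ (1 - cF) = T * Real.exp (-(cF * L)) := by
      rw [Real.rpow_sub hT0, Real.rpow_one, Real.rpow_def_of_pos hT0, Real.exp_neg, div_eq_mul_inv]
      congr 3
      rw [mul_comm]
    have e2 : L ^ 3 * Real.exp (-(cF * L)) ≤ 48 / cF ^ 3 * Real.exp (-(200 * cF * n)) := by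
      have f1 := Real.pow_div_factorial_le_exp (cF / 2 * L) (by positivity) 3
      have f2 : Real.exp (-(cF * L)) = Real.exp (-(cF / 2 * L)) * Real.exp (-(cF / 2 * L)) := by
        rw [← Real.exp_add]; congr 1; ring
      have f3 : Real.exp (-(cF / 2 * L)) * Real.exp (cF / 2 * L) = 1 := by
        rw [← Real.exp_add]; simp
      have f4 : L ^ 3 * Real.exp (-(cF / 2 * L)) ≤ 48 / cF ^ 3 := by
        rw [le_div_iff₀ (by positivity)]
        have f5 : (cF / 2 * L) ^ 3 / 6 ≤ Real.exp (cF / 2 * L) := by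
          simpa [Nat.factorial] using f1
        have f6 := Real.exp_pos (-(cF / 2 * L))
        have f7 := mul_le_mul_of_nonneg_left f5 f6.le
        rw [f3] at f7
        nlinarith
      have f8 : Real.exp (-(cF / 2 * L)) ≤ Real.exp (-(200 * cF * n)) := by
        apply Real.exp_le_exp.2
        nlinarith
      rw [f2, ← mul_assoc]
      exact mul_le_mul f4 f8 (Real.exp_pos _).le (by positivity)
    have e3 : ((Sf.image m).card : ℝ) ≤ CF * (T * Real.exp (-(cF * L))) := by
      rw [← e1]; exact hcm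
    have e4 := hK n
    have e5 := Real.exp_pos (-(200 * cF * n))
    calc (∑ s ∈ Sf, O s) * (2 * CU * L) ^ 2
        ≤ (((Sf.image m).card : ℝ) * (((n : ℝ) + 11) * (2 * CU * L))) * (2 * CU * L) ^ 2 :=
          mul_le_mul_of_nonneg_right hfib (by positivity)
      _ = ((Sf.image m).card : ℝ) * (((n : ℝ) + 11) * (8 * CU ^ 3 * L ^ 3)) := by ring
      _ ≤ (CF * (T * Real.exp (-(cF * L)))) * (((n : ℝ) + 11) * (8 * CU ^ 3 * L ^ 3)) :=
          mul_le_mul_of_nonneg_right e3 (by positivity)
      _ = (CF * T * ((n : ℝ) + 11) * (8 * CU ^ 3)) * (L ^ 3 * Real.exp (-(cF * L))) := by ring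
      _ ≤ (CF * T * ((n : ℝ) + 11) * (8 * CU ^ 3)) * (48 / cF ^ 3 * Real.exp (-(200 * cF * n))) :=
          mul_le_mul_of_nonneg_left e2 (by positivity)
      _ = (CF * (8 * CU ^ 3 * (48 / cF ^ 3)) * T) * (((n : ℝ) + 11) * Real.exp (-(200 * cF * n))) := by ring
      _ ≤ (CF * (8 * CU ^ 3 * (48 / cF ^ 3)) * T) * (K * Real.exp (-(c * n))) :=
          mul_le_mul_of_nonneg_left e4 (by positivity)
      _ = _ := by ring
  -- summation
  have hON : ∀ s, 0 ≤ O s * N s ^ 2 := fun s => mul_nonneg (hO0 s) (by positivity)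
  have hsum : ∑ s ∈ S, O s * N s ^ 2 ≤ ∑ s ∈ S with Fr s, O s * N s ^ 2 +
      ∑ j ∈ Finset.range (J + 1), ∑ s ∈ S with P j s, O s * N s ^ 2 := by
    have e1 : ∀ s ∈ S, O s * N s ^ 2 ≤ (if Fr s then O s * N s ^ 2 else 0) +
        ∑ j ∈ Finset.range (J + 1), (if P j s then O s * N s ^ 2 else 0) := by
      intro s hs
      have e2 : ∀ j ∈ Finset.range (J + 1), 0 ≤ (if P j s then O s * N s ^ 2 else 0) := by
        intro j _; split_ifs; exact hON s; exact le_refl _
      rcases hclass s hs with h | ⟨j, hj, hPj⟩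
      · rw [if_pos h]
        have := Finset.sum_nonneg e2
        linarith
      · have e3 : O s * N s ^ 2 = (if P j s then O s * N s ^ 2 else 0) := by rw [if_pos hPj]
        have e4 := Finset.single_le_sum e2 hj
        have e5 : 0 ≤ (if Fr s then O s * N s ^ 2 else 0) := by split_ifs; exact hON s; exact le_refl _
        linarith
    refine (Finset.sum_le_sum e1).trans ?_
    rw [Finset.sum_add_distrib, Finset.sum_comm]
    simp only [Finset.sum_filter]
    exact le_refl _
  have hgeo := geo (c1 / 2) hc12 n J hn2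
  have hexp : Real.exp (-(c1 / 2 * n)) ≤ Real.exp (-(c * n)) := by
    apply Real.exp_le_exp.2
    have := mul_le_mul_of_nonneg_right hcc1 (Nat.cast_nonneg (α := ℝ) n)
    linarith
  have hsum2 : ∑ j ∈ Finset.range (J + 1), ∑ s ∈ S with P j s, O s * N s ^ 2 ≤
      100 * C1 * C3 * (C3 ^ 2 * (8 / c1 ^ 2)) * T * L * (Real.exp (-(c * n)) / q) := by
    refine (Finset.sum_le_sum hcls2).trans ?_
    rw [← Finset.mul_sum]
    refine mul_le_mul_of_nonneg_left ?_ (by positivity)
    refine hgeo.trans ?_
    rw [← hq]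
    exact div_le_div_of_nonneg_right hexp hq0.le
  have hL1 : 1 ≤ L := by linarith
  have hB0 : 0 ≤ CF * K * (8 * CU ^ 3 * (48 / cF ^ 3)) * T * Real.exp (-(c * n)) := by positivity
  have hfin : ∑ s ∈ S, O s * N s ^ 2 ≤
      (100 * C1 * C3 * (C3 ^ 2 * (8 / c1 ^ 2)) / q + CF * K * (8 * CU ^ 3 * (48 / cF ^ 3))) * T *
        Real.exp (-(c * n)) * L := by
    calc ∑ s ∈ S, O s * N s ^ 2 ≤ CF * K * (8 * CU ^ 3 * (48 / cF ^ 3)) * T * Real.exp (-(c * n)) +
          100 * C1 * C3 * (C3 ^ 2 * (8 / c1 ^ 2)) * T * L * (Real.exp (-(c * n)) / q) := by linarith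
      _ ≤ CF * K * (8 * CU ^ 3 * (48 / cF ^ 3)) * T * Real.exp (-(c * n)) * L +
          100 * C1 * C3 * (C3 ^ 2 * (8 / c1 ^ 2)) * T * L * (Real.exp (-(c * n)) / q) := by
          have := mul_le_mul_of_nonneg_left hL1 hB0
          linarith
      _ = _ := by ring
  exact hfin

end Pool.Agent.H24R2.PC
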