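import Pool.Agent.H24R2.PC.Spec
set_option autoImplicit false
namespace Pool.Agent.H24R2.PC
open Complex Filter Topology MeasureTheory Set
open Pool.Agent.H24R2.JP (XX HH Om)
open Pool.Agent.H24R2.DZ (reg SUnit)

namespace UpAux

theorem sub_sum (Z : Finset ℂ) (m : ℂ → ℝ) (hm : ∀ z ∈ Z, 1 ≤ m z) (p q : ℂ → Prop)
    [DecidablePred p] [DecidablePred q] (h : ∀ z ∈ Z, p z → q z) :
    ∑ z ∈ Z with p z, m z ≤ ∑ z ∈ Z with q z, m z := by
  refine Finset.sum_le_sum_of_subset_of_nonneg ?_ ?_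
  · intro z hz
    rw [Finset.mem_filter] at hz ⊢
    exact ⟨hz.1, h z hz.1 hz.2⟩
  · intro z hz _
    have := hm z (Finset.mem_filter.1 hz).1
    linarith

theorem main (Z : Finset ℂ) (m E : ℂ → ℝ) (Bd : ℂ → Prop) [DecidablePred Bd] (w T κ A : ℝ)
    (hm : ∀ z ∈ Z, 1 ≤ m z) (hw : 2 * w ≤ 1) (hw0 : 0 ≤ w) (hA : 0 ≤ A) (hκ : 0 ≤ κ)
    (hT : ∀ z ∈ Z, z.im ≤ 2 * T)
    (ha : ∀ s ∈ Z, s.im + w ≤ 2 * T → (∀ z ∈ Z, s.im ≤ z.im → z.im ≤ s.im + w → ¬ Bd z) →
      E s ≤ κ)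
    (hb : ∀ s ∈ Z, E s ≤ A * ∑ z ∈ Z with |z.im - s.im| ≤ w, m z) :
    ∑ s ∈ Z, m s * E s ≤ κ * ∑ s ∈ Z, m s +
      A * ((∑ z ∈ Z with |z.im - 2 * T| ≤ 1, m z) ^ 2 +
        ∑ σ ∈ Z with Bd σ, m σ * (∑ z ∈ Z with |z.im - σ.im| ≤ 2 * w, m z) ^ 2) := by
  classical
  have hm0 : ∀ z ∈ Z, 0 ≤ m z := fun z hz => by linarith [hm z hz]
  have hN0 : ∀ (p : ℂ → Prop) [DecidablePred p], 0 ≤ ∑ z ∈ Z with p z, m z := by
    intro p _
    exact Finset.sum_nonneg fun z hz => hm0 z (Finset.mem_filter.1 hz).1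
  have hpt : ∀ s ∈ Z, m s * E s ≤ κ * m s +
      A * (m s * (∑ z ∈ Z with |z.im - s.im| ≤ w, m z) * (if 2 * T < s.im + w then 1 else 0) +
        ∑ σ ∈ Z with Bd σ, m s * (∑ z ∈ Z with |z.im - s.im| ≤ w, m z) *
          (if |s.im - σ.im| ≤ w then 1 else 0)) := by
    intro s hs
    have h0 := hm0 s hs
    have hN := hN0 (fun z => |z.im - s.im| ≤ w)
    have hE := hb s hs
    obtain ⟨N, hNd⟩ : ∃ N, N = ∑ z ∈ Z with |z.im - s.im| ≤ w, m z := ⟨_, rfl⟩
    rw [← hNd] at hN hE ⊢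
    have hmN : 0 ≤ m s * N := mul_nonneg h0 hN
    have hs2 : 0 ≤ ∑ σ ∈ Z with Bd σ, m s * N * (if |s.im - σ.im| ≤ w then (1 : ℝ) else 0) := by
      refine Finset.sum_nonneg fun σ _ => mul_nonneg hmN ?_
      split_ifs <;> norm_num
    have hbig : m s * E s ≤ A * (m s * N) := by
      have := mul_le_mul_of_nonneg_left hE h0
      linarith
    have hκm : 0 ≤ κ * m s := mul_nonneg hκ h0
    by_cases h1 : 2 * T < s.im + w
    · rw [if_pos h1, mul_one, mul_add]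
      have := mul_nonneg hA hs2
      linarith
    · rw [if_neg h1, mul_zero, zero_add]
      by_cases h2 : ∀ z ∈ Z, s.im ≤ z.im → z.im ≤ s.im + w → ¬ Bd z
      · have h3 := ha s hs (not_lt.1 h1) h2
        have h4 := mul_le_mul_of_nonneg_left h3 h0
        have := mul_nonneg hA hs2
        linarith
      · push Not at h2
        obtain ⟨σ, hσ, h3, h4, h5⟩ := h2
        have h6 : m s * N ≤
            ∑ σ ∈ Z with Bd σ, m s * N * (if |s.im - σ.im| ≤ w then (1 : ℝ) else 0) := by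
          have h7 := Finset.single_le_sum
            (f := fun σ : ℂ => m s * N * (if |s.im - σ.im| ≤ w then (1 : ℝ) else 0))
            (s := Z.filter Bd) (fun τ _ => by
              refine mul_nonneg hmN ?_
              split_ifs <;> norm_num) (Finset.mem_filter.2 ⟨hσ, h5⟩)
          have h8 : |s.im - σ.im| ≤ w := by
            rw [abs_le]
            constructor <;> linarith
          simp only [if_pos h8, mul_one] at h7
          exact h7
        have := mul_le_mul_of_nonneg_left h6 hA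
        linarith
  have hsum := Finset.sum_le_sum hpt
  refine hsum.trans ?_
  rw [Finset.sum_add_distrib, ← Finset.mul_sum, ← Finset.mul_sum, Finset.sum_add_distrib]
  refine add_le_add (le_refl _) (mul_le_mul_of_nonneg_left (add_le_add ?_ ?_) hA)
  · -- near the upper end
    have h1 : ∀ s ∈ Z, m s * (∑ z ∈ Z with |z.im - s.im| ≤ w, m z) *
        (if 2 * T < s.im + w then 1 else 0) ≤
        (if 2 * T < s.im + w then m s else 0) * ∑ z ∈ Z with |z.im - 2 * T| ≤ 1, m z := by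
      intro s hs
      split_ifs with h
      · rw [mul_one]
        refine mul_le_mul_of_nonneg_left ?_ (hm0 s hs)
        refine sub_sum Z m hm _ _ fun z hz hz1 => ?_
        have h2 := hT s hs
        rw [abs_le] at hz1 ⊢
        constructor <;> linarith [hz1.1, hz1.2]
      · simp
    refine (Finset.sum_le_sum h1).trans ?_
    rw [← Finset.sum_mul, sq, ← Finset.sum_filter]
    refine mul_le_mul_of_nonneg_right ?_ (hN0 _)
    refine sub_sum Z m hm _ _ fun z hz hz1 => ?_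
    have h2 := hT z hz
    rw [abs_le]
    constructor <;> linarith
  · rw [Finset.sum_comm]
    refine Finset.sum_le_sum fun σ hσ => ?_
    have hσZ := (Finset.mem_filter.1 hσ).1
    have hN2 := hN0 (fun z => |z.im - σ.im| ≤ 2 * w)
    have h1 : ∀ s ∈ Z, m s * (∑ z ∈ Z with |z.im - s.im| ≤ w, m z) *
        (if |s.im - σ.im| ≤ w then 1 else 0) ≤
        (if |s.im - σ.im| ≤ w then m s else 0) * ∑ z ∈ Z with |z.im - σ.im| ≤ 2 * w, m z := by
      intro s hs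
      split_ifs with h
      · rw [mul_one]
        refine mul_le_mul_of_nonneg_left ?_ (hm0 s hs)
        refine sub_sum Z m hm _ _ fun z hz hz1 => ?_
        rw [abs_le] at hz1 h ⊢
        constructor <;> linarith [hz1.1, hz1.2, h.1, h.2]
      · simp
    refine (Finset.sum_le_sum h1).trans ?_
    rw [← Finset.sum_mul, ← Finset.sum_filter]
    have h3 : ∑ z ∈ Z with |z.im - σ.im| ≤ w, m z ≤
        ∑ z ∈ Z with |z.im - σ.im| ≤ 2 * w, m z :=
      sub_sum Z m hm _ _ fun z hz hz1 => by linarith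
    have h4 := mul_le_mul_of_nonneg_right h3 hN2
    refine h4.trans ?_
    have h5 : 0 ≤ (∑ z ∈ Z with |z.im - σ.im| ≤ 2 * w, m z) ^ 2 := sq_nonneg _
    have h6 := mul_le_mul_of_nonneg_right (hm σ hσZ) h5
    rw [one_mul] at h6
    rw [← sq]
    exact h6

/-- the crude bound for the inner sum -/
theorem crude (Z : Finset ℂ) (m : ℂ → ℝ) (g : ℝ → ℝ) (K : ℕ) (L M : ℝ) (s : ℂ) (hL : 0 < L)
    (hm : ∀ z ∈ Z, 1 ≤ m z) (hs : s ∈ Z) (hM : ∀ x, |g x| ≤ M)
    (hg : ∀ x : ℝ, (K : ℝ) ≤ |x| → g x = 0) :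
    |∑ z ∈ Z with s.im < z.im, m z * g ((z.im - s.im) * L / (2 * Real.pi)) -
      ∑ k ∈ Finset.Icc 1 K, g k| ≤
      ((K + 1) * M) * ∑ z ∈ Z with |z.im - s.im| ≤ ((K : ℝ) + 2) * (2 * Real.pi / L), m z := by
  have hM0 : 0 ≤ M := (abs_nonneg _).trans (hM 0)
  have hpi := Real.pi_pos
  obtain ⟨w, hw⟩ : ∃ w, w = ((K : ℝ) + 2) * (2 * Real.pi / L) := ⟨_, rfl⟩
  have hw0 : 0 ≤ w := by rw [hw]; positivity
  rw [← hw]
  have h1 : |∑ z ∈ Z with s.im < z.im, m z * g ((z.im - s.im) * L / (2 * Real.pi))| ≤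
      M * ∑ z ∈ Z with |z.im - s.im| ≤ w, m z := by
    rw [Finset.sum_filter]
    refine (Finset.abs_sum_le_sum_abs _ _).trans ?_
    rw [Finset.sum_filter, Finset.mul_sum]
    refine Finset.sum_le_sum fun z hz => ?_
    have hz0 : 0 ≤ m z := by linarith [hm z hz]
    by_cases h2 : s.im < z.im
    · rw [if_pos h2]
      by_cases h3 : |z.im - s.im| ≤ w
      · rw [if_pos h3, abs_mul, abs_of_nonneg hz0, mul_comm]
        exact mul_le_mul_of_nonneg_right (hM _) hz0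
      · rw [if_neg h3, mul_zero, hg, mul_zero, abs_zero]
        have h4 : 0 < z.im - s.im := by linarith
        rw [abs_of_pos h4, not_le] at h3
        rw [abs_of_pos (by positivity), le_div_iff₀ (by positivity)]
        have h5 : w * L = ((K : ℝ) + 2) * (2 * Real.pi) := by
          rw [hw]
          field_simp
        have h6 : w * L < (z.im - s.im) * L := mul_lt_mul_of_pos_right h3 hL
        have h7 : (K : ℝ) * (2 * Real.pi) ≤ ((K : ℝ) + 2) * (2 * Real.pi) :=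
          mul_le_mul_of_nonneg_right (by linarith) (by positivity)
        linarith
    · rw [if_neg h2, abs_zero]
      split_ifs
      · exact mul_nonneg hM0 hz0
      · simp
  have h2 : |∑ k ∈ Finset.Icc 1 K, g k| ≤ K * M := by
    refine (Finset.abs_sum_le_sum_abs _ _).trans ?_
    refine (Finset.sum_le_sum fun (k : ℕ) _ => hM (k : ℝ)).trans ?_
    rw [Finset.sum_const, Nat.card_Icc, nsmul_eq_mul]
    simp
  have h3 : 1 ≤ ∑ z ∈ Z with |z.im - s.im| ≤ w, m z := by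
    have h4 := Finset.single_le_sum (f := m) (s := Z.filter fun z => |z.im - s.im| ≤ w)
      (fun z hz => by linarith [hm z (Finset.mem_filter.1 hz).1])
      (Finset.mem_filter.2 ⟨hs, by simpa using hw0⟩)
    exact (hm s hs).trans h4
  obtain ⟨N, hN⟩ : ∃ N, N = ∑ z ∈ Z with |z.im - s.im| ≤ w, m z := ⟨_, rfl⟩
  rw [← hN] at h1 h3 ⊢
  refine (abs_sub _ _).trans ?_
  have h4 : (K : ℝ) * M ≤ K * M * N := by
    have : 0 ≤ (K : ℝ) * M := by positivity
    nlinarith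
  nlinarith

theorem expo (B c d : ℝ) (hB : 0 ≤ B) (hc : 0 < c) (hd : 0 < d) :
    ∃ n1 : ℕ, ∀ n : ℕ, n1 ≤ n → B * Real.exp (-(c * n)) ≤ d := by
  obtain ⟨n1, hn1⟩ := exists_nat_ge (B / (d * c))
  refine ⟨n1, fun n hn => ?_⟩
  have h1 : (n1 : ℝ) ≤ n := by exact_mod_cast hn
  have h2 : B / (d * c) ≤ n := hn1.trans h1
  rw [div_le_iff₀ (by positivity)] at h2
  rw [Real.exp_neg, ← div_eq_mul_inv, div_le_iff₀ (Real.exp_pos _)]
  have h3 := Real.add_one_le_exp (c * n)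
  have h4 := mul_le_mul_of_nonneg_left h3 hd.le
  nlinarith

theorem logs (a B d : ℝ) (hd : 0 < d) :
    ∃ T1 : ℝ, 2 ≤ T1 ∧ ∀ T : ℝ, T1 ≤ T → a ≤ Real.log T ∧ B * Real.log T ≤ d * T := by
  have h1 : ∀ᶠ T : ℝ in atTop, a ≤ Real.log T := Real.tendsto_log_atTop.eventually_ge_atTop a
  have h2 : ∀ᶠ T : ℝ in atTop, ‖Real.log T‖ ≤ (d / (|B| + 1)) * ‖T‖ :=
    Real.isLittleO_log_id_atTop.def (by positivity)
  obtain ⟨T1, hT1⟩ := (h1.and (h2.and (eventually_ge_atTop (1 : ℝ)))).exists_forall_of_atTop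
  refine ⟨max T1 2, le_max_right _ _, fun T hT => ?_⟩
  obtain ⟨h3, h4, h5⟩ := hT1 T ((le_max_left _ _).trans hT)
  refine ⟨h3, ?_⟩
  have h6 : 0 ≤ Real.log T := Real.log_nonneg h5
  rw [Real.norm_of_nonneg h6, Real.norm_of_nonneg (by linarith)] at h4
  have h7 : B * Real.log T ≤ (|B| + 1) * Real.log T :=
    mul_le_mul_of_nonneg_right (by linarith [le_abs_self B]) h6
  refine h7.trans ?_
  have h8 : (0 : ℝ) < |B| + 1 := by positivity
  calc (|B| + 1) * Real.log T ≤ (|B| + 1) * (d / (|B| + 1) * T) :=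
        mul_le_mul_of_nonneg_left h4 h8.le
    _ = d * T := by field_simp

end UpAux

theorem pUp (h1 : SPair) (h2 : SCnt) (h3 : SUnit) (h4 : SOne) (h5 : SLoc) : SUp := by
  classical
  intro g K hgc hg0 δ hδ
  have hpi := Real.pi_pos
  have hcs : HasCompactSupport g := by
    refine HasCompactSupport.intro (isCompact_Icc : IsCompact (Set.Icc (-(K : ℝ)) K)) ?_
    intro x hx
    apply hg0
    by_contra hcon
    rw [not_le] at hcon
    exact hx ⟨by linarith [(abs_lt.1 hcon).1], by linarith [(abs_lt.1 hcon).2]⟩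
  obtain ⟨M0, hM0⟩ := hcs.exists_bound_of_continuous hgc
  obtain ⟨M, hMd⟩ : ∃ M, M = |M0| + 1 := ⟨_, rfl⟩
  have hMpos : 0 < M := by rw [hMd]; positivity
  have hM : ∀ x, |g x| ≤ M := fun x => by
    have := hM0 x
    rw [Real.norm_eq_abs] at this
    rw [hMd]
    linarith [le_abs_self M0]
  have huc : UniformContinuous g := hcs.uniformContinuous_of_continuous hgc
  obtain ⟨C1, T1, hC1, hT1, hcnt⟩ := h2
  obtain ⟨C2, T2, hC2, hT2, hunit⟩ := h3
  have hK0 : (0 : ℝ) ≤ K := Nat.cast_nonneg K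
  obtain ⟨δ1, hδ1d⟩ : ∃ δ1, δ1 = δ / (3 * ((K : ℝ) + 1) * C1) := ⟨_, rfl⟩
  have hδ1 : 0 < δ1 := by rw [hδ1d]; positivity
  have hδ1e : δ1 * (3 * ((K : ℝ) + 1) * C1) = δ := by
    rw [hδ1d]
    field_simp
  obtain ⟨η, hη, huc'⟩ := Metric.uniformContinuous_iff.1 huc δ1 hδ1
  obtain ⟨ε, hεd⟩ : ∃ ε, ε = min (min (1 / (4 * ((K : ℝ) + 2))) (1 / 2)) (η / (2 * ((K : ℝ) + 1))) :=
    ⟨_, rfl⟩
  have hε : 0 < ε := by
    rw [hεd]
    exact lt_min (lt_min (by positivity) (by norm_num)) (by positivity)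
  have hε1 : ε ≤ 1 / (4 * ((K : ℝ) + 2)) := by
    rw [hεd]
    exact (min_le_left _ _).trans (min_le_left _ _)
  have hε2 : ε ≤ 1 / 2 := by
    rw [hεd]
    exact (min_le_left _ _).trans (min_le_right _ _)
  have hε3 : ε ≤ η / (2 * ((K : ℝ) + 1)) := by
    rw [hεd]
    exact min_le_right _ _
  have hε4 : ε * (4 * ((K : ℝ) + 2)) ≤ 1 := by
    rw [le_div_iff₀ (by positivity)] at hε1
    exact hε1
  have hε5 : ε * K < η := by
    rw [le_div_iff₀ (by positivity)] at hε3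
    nlinarith
  have hguc : ∀ x y : ℝ, |x - y| ≤ ε * K → |g x - g y| ≤ δ1 := by
    intro x y hxy
    have h6 := huc' (a := x) (b := y) (by rw [Real.dist_eq]; linarith)
    rw [Real.dist_eq] at h6
    exact h6.le
  have hD : 0 < 4 * Real.pi * ((K : ℝ) + 2) := by positivity
  obtain ⟨c, C3, T3, n3, hc, hC3, hT3, hpair⟩ := h1 ε (4 * Real.pi * ((K : ℝ) + 2)) hε hε2 hD
  obtain ⟨A, hAd⟩ : ∃ A, A = ((K : ℝ) + 1) * M := ⟨_, rfl⟩
  have hA : 0 < A := by rw [hAd]; positivity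
  obtain ⟨n1, hn1⟩ := UpAux.expo (A * C3) c (δ / 3) (by positivity) hc (by positivity)
  obtain ⟨T4, hT4, hlog⟩ := UpAux.logs (4 * Real.pi * ((K : ℝ) + 2)) (A * (2 * C2) ^ 2) (δ / 3)
    (by positivity)
  refine ⟨max n3 n1, max (max T1 T2) (max T3 T4),
    hT1.trans ((le_max_left _ _).trans (le_max_left _ _)), fun T n hT hn hnL Z hZ => ?_⟩
  have hTT1 : T1 ≤ T := ((le_max_left _ _).trans (le_max_left _ _)).trans hT
  have hTT2 : T2 ≤ T := ((le_max_right _ _).trans (le_max_left _ _)).trans hT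
  have hTT3 : T3 ≤ T := ((le_max_left _ _).trans (le_max_right _ _)).trans hT
  have hTT4 : T4 ≤ T := ((le_max_right _ _).trans (le_max_right _ _)).trans hT
  have hT2' : 2 ≤ T := hT1.trans hTT1
  obtain ⟨hL1, hL2⟩ := hlog T hTT4
  have hLpos : 0 < Real.log T := Real.log_pos (by linarith)
  have hZ0 : ∀ z ∈ Z, iteratedDeriv n XX z = 0 := fun z hz => ((hZ z).1 hz).1
  have hm : ∀ z ∈ Z, 1 ≤ mu n z := fun z hz => h4 n z (hZ0 z hz)
  have hsumC := hcnt T n hTT1 (by linarith) Z (fun s hs => (hZ s).1 hs)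
  have hlog2 : Real.log (2 * T) ≤ 2 * Real.log T := by
    have h6 : Real.log (2 * T) ≤ Real.log (T ^ 2) := Real.log_le_log (by linarith) (by nlinarith)
    rwa [Real.log_pow, Nat.cast_ofNat] at h6
  have hlog3 : Real.log T ≤ Real.log (2 * T) := Real.log_le_log (by linarith) (by linarith)
  have hU := hunit (2 * T) n (by linarith) (by linarith) (Z.filter fun z => |z.im - 2 * T| ≤ 1)
    (fun s hs => ⟨(Finset.mem_filter.1 hs).2, hZ0 s (Finset.mem_filter.1 hs).1⟩)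
  obtain ⟨w, hw⟩ : ∃ w, w = ((K : ℝ) + 2) * (2 * Real.pi / Real.log T) := ⟨_, rfl⟩
  have hw0 : 0 ≤ w := by rw [hw]; positivity
  have hw2 : 4 * Real.pi * ((K : ℝ) + 2) / Real.log T = 2 * w := by
    rw [hw]
    ring
  have hw1 : 2 * w ≤ 1 := by
    rw [← hw2, div_le_one hLpos]
    exact hL1
  have hP := hpair T n hTT3 ((le_max_left _ _).trans hn) hnL
    (Z.filter fun z => ¬ reg ε (Real.log T) n z) Z
    (fun s hs => ⟨⟨hZ0 s (Finset.mem_filter.1 hs).1, (Finset.mem_filter.1 hs).2⟩,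
      ((hZ s).1 (Finset.mem_filter.1 hs).1).2⟩) hZ0
  rw [hw2] at hP
  have hmain := UpAux.main Z (mu n)
    (fun s => |∑ z ∈ Z with s.im < z.im, mu n z * g ((z.im - s.im) * Real.log T / (2 * Real.pi)) -
      ∑ k ∈ Finset.Icc 1 K, g k|) (fun z => ¬ reg ε (Real.log T) n z) w T (K * δ1) A hm hw1 hw0
    hA.le (by positivity) (fun z hz => ((hZ z).1 hz).2.2)
    (by
      intro s hs hs1 hs2
      have hsT := ((hZ s).1 hs).2.1
      refine h5 g K ε δ1 n (Real.log T) s Z hε hε4 hLpos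
        (fun x hx => hg0 x (hx.le.trans (le_abs_self x))) hguc (hZ0 s hs) ?_ hZ0 ?_
      · intro z hz hz1 hz2
        rw [← hw] at hz2
        have hzZ : z ∈ Z := (hZ z).2 ⟨hz, by linarith, by linarith⟩
        exact not_not.1 (hs2 z hzZ hz1 hz2)
      · intro z hz hz1 hz2
        rw [← hw] at hz2
        exact (hZ z).2 ⟨hz, by linarith, by linarith⟩)
    (by
      intro s hs
      have := UpAux.crude Z (mu n) g K (Real.log T) M s hLpos hm hs hM hg0
      rw [← hw, ← hAd] at this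
      exact this)
  have hE : ∑ s ∈ Z, mu n s *
      ∑ z ∈ Z with s.im < z.im, mu n z * g ((z.im - s.im) * Real.log T / (2 * Real.pi)) -
      (∑ k ∈ Finset.Icc 1 K, g k) * ∑ s ∈ Z, mu n s =
      ∑ s ∈ Z, mu n s * (∑ z ∈ Z with s.im < z.im,
        mu n z * g ((z.im - s.im) * Real.log T / (2 * Real.pi)) - ∑ k ∈ Finset.Icc 1 K, g k) := by
    rw [Finset.mul_sum, ← Finset.sum_sub_distrib]
    refine Finset.sum_congr rfl fun s _ => ?_
    ring
  rw [hE]
  have hE2 : |∑ s ∈ Z, mu n s * (∑ z ∈ Z with s.im < z.im,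
        mu n z * g ((z.im - s.im) * Real.log T / (2 * Real.pi)) - ∑ k ∈ Finset.Icc 1 K, g k)| ≤
      ∑ s ∈ Z, mu n s * |∑ z ∈ Z with s.im < z.im,
        mu n z * g ((z.im - s.im) * Real.log T / (2 * Real.pi)) - ∑ k ∈ Finset.Icc 1 K, g k| := by
    refine (Finset.abs_sum_le_sum_abs _ _).trans (le_of_eq ?_)
    refine Finset.sum_congr rfl fun s hs => ?_
    rw [abs_mul, abs_of_nonneg (by linarith [hm s hs] : 0 ≤ mu n s)]
  refine hE2.trans (hmain.trans ?_)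
  have hexp := hn1 n ((le_max_right _ _).trans hn)
  have hU0 : 0 ≤ ∑ z ∈ Z with |z.im - 2 * T| ≤ 1, mu n z :=
    Finset.sum_nonneg fun z hz => by linarith [hm z (Finset.mem_filter.1 hz).1]
  have hU' : ∑ z ∈ Z with |z.im - 2 * T| ≤ 1, mu n z ≤ C2 * Real.log (2 * T) := hU
  clear hmain hE hE2 hU hcnt hunit hpair hlog huc' hguc
  obtain ⟨U, hUd⟩ : ∃ U, U = ∑ z ∈ Z with |z.im - 2 * T| ≤ 1, mu n z := ⟨_, rfl⟩
  obtain ⟨Q, hQd⟩ : ∃ Q, Q = ∑ σ ∈ Z with ¬ reg ε (Real.log T) n σ,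
    mu n σ * (∑ z ∈ Z with |z.im - σ.im| ≤ 2 * w, mu n z) ^ 2 := ⟨_, rfl⟩
  obtain ⟨R, hRd⟩ : ∃ R, R = ∑ s ∈ Z, mu n s := ⟨_, rfl⟩
  obtain ⟨L, hLd⟩ : ∃ L, L = Real.log T := ⟨_, rfl⟩
  obtain ⟨X, hXd⟩ : ∃ X, X = Real.exp (-(c * n)) := ⟨_, rfl⟩
  rw [← hUd] at hU0 hU' ⊢
  rw [← hQd] at hP ⊢
  rw [← hRd] at hsumC ⊢
  rw [← hLd] at hP hsumC hL1 hL2 hLpos hlog2 ⊢
  rw [← hXd] at hP hexp
  clear hUd hQd hRd hXd
  have hT0 : 0 ≤ T := by linarith
  have hTL : 0 ≤ T * L := mul_nonneg hT0 hLpos.le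
  -- first part
  have p1 : K * δ1 * R ≤ δ / 3 * (T * L) := by
    have e1 : K * δ1 * R ≤ K * δ1 * (C1 * (T * L)) :=
      mul_le_mul_of_nonneg_left hsumC (by positivity)
    have e2 : (K : ℝ) * δ1 * C1 ≤ δ / 3 := by
      have e3 : (0 : ℝ) ≤ δ1 * C1 := by positivity
      nlinarith
    have e4 := mul_le_mul_of_nonneg_right e2 hTL
    linarith
  -- second part
  have p2 : A * U ^ 2 ≤ δ / 3 * (T * L) := by
    have e1 : U ≤ (2 * C2) * L := by
      have := mul_le_mul_of_nonneg_left hlog2 hC2.le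
      linarith
    have e2 : U ^ 2 ≤ ((2 * C2) * L) ^ 2 := pow_le_pow_left₀ hU0 e1 2
    have e3 : A * U ^ 2 ≤ A * ((2 * C2) * L) ^ 2 := mul_le_mul_of_nonneg_left e2 hA.le
    have e4 : A * ((2 * C2) * L) ^ 2 = A * (2 * C2) ^ 2 * L * L := by ring
    have e5 := mul_le_mul_of_nonneg_right hL2 hLpos.le
    linarith
  -- third part
  have p3 : A * Q ≤ δ / 3 * (T * L) := by
    have e1 := mul_le_mul_of_nonneg_left hP hA.le
    have e2 := mul_le_mul_of_nonneg_right hexp hTL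
    have e3 : A * (C3 * T * X * L) = A * C3 * X * (T * L) := by ring
    linarith
  have e : K * δ1 * R + A * (U ^ 2 + Q) = K * δ1 * R + A * U ^ 2 + A * Q := by ring
  rw [e]
  linarith

end Pool.Agent.H24R2.PC
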