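import Pool.Agent.H24R2.PC.SpecN

set_option autoImplicit false

namespace Pool.Agent.H24R2.PC

open Complex Filter Topology MeasureTheory Set
open Pool.Agent.H24R2.JP (XX HH Om)
open Pool.Agent.H24R2.DZ (reg SUnit)

namespace UppAux

theorem diffXX : Differentiable ℂ XX := by
  unfold XX
  have h := differentiable_completedZeta₀
  have h2 : Differentiable ℂ (fun z : ℂ => completedRiemannZeta₀ (1 / 2 + z)) :=
    h.comp (by fun_prop)
  fun_prop

theorem diffIter (n : ℕ) : Differentiable ℂ (iteratedDeriv n XX) := by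
  have h : ContDiff ℂ ⊤ XX := diffXX.contDiff
  exact h.differentiable_iteratedDeriv n (by exact_mod_cast WithTop.coe_lt_top _)

/-- simple zeros have multiplicity one -/
theorem mu_one {n : ℕ} {s : ℂ} (h0 : iteratedDeriv n XX s = 0)
    (h1 : iteratedDeriv (n + 1) XX s ≠ 0) : mu n s = 1 := by
  have ha : AnalyticAt ℂ (iteratedDeriv n XX) s := (diffIter n).analyticAt s
  have hb : AnalyticAt ℂ (iteratedDeriv (n + 1) XX) s := (diffIter (n + 1)).analyticAt s
  have h2 := ha.analyticOrderAt_deriv_add_one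
  have h3 : deriv (iteratedDeriv n XX) = iteratedDeriv (n + 1) XX := by
    rw [iteratedDeriv_succ]
  rw [h3, h0] at h2
  have h4 : analyticOrderAt (iteratedDeriv (n + 1) XX) s = 0 := hb.analyticOrderAt_eq_zero.2 h1
  rw [h4, zero_add] at h2
  simp only [sub_zero] at h2
  unfold mu analyticOrderNatAt
  have h5 : analyticOrderAt (iteratedDeriv n XX) s = 1 := h2.symm
  rw [h5]
  simp

/-- A separated set of points in a window of length `T` has at most `T / d + 1` elements. -/
theorem sep_card (R : Finset ℂ) (T d : ℝ) (hT : 0 < T) (hd : 0 < d)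
    (hR : ∀ s ∈ R, T < s.im ∧ s.im ≤ 2 * T)
    (hsep : ∀ s ∈ R, ∀ z ∈ R, z ≠ s → d ≤ |z.im - s.im|) :
    (R.card : ℝ) ≤ T / d + 1 := by
  have h1 : R.card ≤ (Finset.range (⌊T / d⌋₊ + 1)).card := by
    apply Finset.card_le_card_of_injOn (fun s : ℂ => ⌊(s.im - T) / d⌋₊)
    · intro s hs
      obtain ⟨h2, h3⟩ := hR s hs
      rw [Finset.coe_range, Set.mem_Iio, Nat.lt_succ_iff]
      apply Nat.floor_le_floor
      apply div_le_div_of_nonneg_right _ hd.le
      linarith
    · intro s hs z hz hsz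
      by_contra hne
      have h2 := hsep s hs z hz (fun h => hne h.symm)
      simp only at hsz
      have hs0 : 0 ≤ (s.im - T) / d := div_nonneg (by linarith [(hR s hs).1]) hd.le
      have hz0 : 0 ≤ (z.im - T) / d := div_nonneg (by linarith [(hR z hz).1]) hd.le
      have a1 := Nat.floor_le hs0
      have a2 := Nat.lt_floor_add_one ((s.im - T) / d)
      have b1 := Nat.floor_le hz0
      have b2 := Nat.lt_floor_add_one ((z.im - T) / d)
      rw [hsz] at a1 a2
      have h3 : |(z.im - T) / d - (s.im - T) / d| < 1 := by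
        rw [abs_lt]
        constructor <;> linarith
      have h4 : (z.im - T) / d - (s.im - T) / d = (z.im - s.im) / d := by ring
      rw [h4, abs_div, abs_of_pos hd, div_lt_one hd] at h3
      linarith
  rw [Finset.card_range] at h1
  have h2 : (R.card : ℝ) ≤ (⌊T / d⌋₊ : ℝ) + 1 := by exact_mod_cast h1
  have h3 := Nat.floor_le (div_nonneg hT.le hd.le)
  linarith

end UppAux

open UppAux in
theorem pUpp (h1 : SPair) (h2 : SOne) : SUpp := by
  classical
  intro δ hδ
  obtain ⟨ε, hε0, hε2, hεδ⟩ : ∃ ε : ℝ, 0 < ε ∧ ε ≤ 1 / 2 ∧ ε * (3 + δ) ≤ δ := by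
    refine ⟨min (1 / 2) (δ / (3 + δ)), lt_min (by norm_num) (by positivity), min_le_left _ _, ?_⟩
    have h3 : min (1 / 2) (δ / (3 + δ)) ≤ δ / (3 + δ) := min_le_right _ _
    calc _ ≤ δ / (3 + δ) * (3 + δ) := mul_le_mul_of_nonneg_right h3 (by positivity)
      _ = δ := by field_simp
  obtain ⟨c, C, T0, n0, hc, hC, hT0, hP⟩ := h1 ε 1 hε0 hε2 one_pos
  have hpi := Real.pi_pos
  have hlim : Tendsto (fun n : ℕ => C * Real.exp (-(c * n))) atTop (𝓝 0) := by
    have h2 : Tendsto (fun n : ℕ => c * (n : ℝ)) atTop atTop :=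
      tendsto_natCast_atTop_atTop.const_mul_atTop hc
    have h3 := (Real.tendsto_exp_neg_atTop_nhds_zero.comp h2).const_mul C
    rw [mul_zero] at h3
    exact h3
  have hδ6 : 0 < δ / 3 / (2 * Real.pi) := by positivity
  obtain ⟨n1, hn1⟩ := eventually_atTop.1 (hlim.eventually_lt_const hδ6)
  refine ⟨max n0 n1, max T0 (12 * Real.pi / δ), hT0.trans (le_max_left _ _),
    fun T n hT hn hnT Z hZ => ?_⟩
  have hn0' : n0 ≤ n := (le_max_left _ _).trans hn
  have hn1' : n1 ≤ n := (le_max_right _ _).trans hn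
  have hTT0 : T0 ≤ T := (le_max_left _ _).trans hT
  have hTT1 : 12 * Real.pi / δ ≤ T := (le_max_right _ _).trans hT
  have hT2 : 2 ≤ T := hT0.trans hTT0
  have hTpos : 0 < T := by linarith
  have hL2 : 1 / 2 ≤ Real.log T := by
    have h3 : Real.log 2 ≤ Real.log T := Real.log_le_log (by norm_num) hT2
    have h4 := Real.log_two_gt_d9
    linarith
  have hL : 0 < Real.log T := by linarith
  set L := Real.log T with hLdef
  have hmu0 : ∀ s, 0 ≤ mu n s := fun s => Nat.cast_nonneg _
  set N : ℂ → ℝ := fun s => ∑ z ∈ Z with |z.im - s.im| ≤ 1 / L, mu n z with hN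
  have hNge : ∀ s ∈ Z, 1 ≤ N s := by
    intro s hs
    have h5 : 1 ≤ mu n s := h2 n s ((hZ s).1 hs).1
    refine h5.trans ?_
    refine Finset.single_le_sum (f := fun z => mu n z) (fun z _ => hmu0 z)
      (Finset.mem_filter.2 ⟨hs, ?_⟩)
    rw [sub_self, abs_zero]
    positivity
  -- irregular zeros
  have hPP := hP T n hTT0 hn0' hnT (Z.filter fun s => ¬ reg ε L n s) Z
    (by
      intro s hs
      rw [Finset.mem_filter] at hs
      have h5 := (hZ s).1 hs.1
      exact ⟨⟨h5.1, hs.2⟩, h5.2.1, h5.2.2⟩)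
    (fun z hz => ((hZ z).1 hz).1)
  have hirr : ∑ s ∈ Z with ¬ reg ε L n s, mu n s ≤ δ / 3 / (2 * Real.pi) * (T * L) := by
    calc ∑ s ∈ Z with ¬ reg ε L n s, mu n s
        ≤ ∑ s ∈ Z with ¬ reg ε L n s, mu n s * N s ^ 2 := by
          apply Finset.sum_le_sum
          intro s hs
          rw [Finset.mem_filter] at hs
          have h6 := hNge s hs.1
          have h7 : 1 ≤ N s ^ 2 := by nlinarith
          have h8 := hmu0 s
          nlinarith
      _ ≤ C * T * Real.exp (-(c * n)) * L := hPP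
      _ = (C * Real.exp (-(c * n))) * (T * L) := by ring
      _ ≤ δ / 3 / (2 * Real.pi) * (T * L) :=
          mul_le_mul_of_nonneg_right (hn1 n hn1').le (by positivity)
  -- regular zeros
  have hd : 0 < (1 - ε) * (2 * Real.pi / L) := mul_pos (by linarith) (by positivity)
  have hreg : ∑ s ∈ Z with reg ε L n s, mu n s ≤ T / ((1 - ε) * (2 * Real.pi / L)) + 1 := by
    have h5 : ∑ s ∈ Z with reg ε L n s, mu n s = ((Z.filter fun s => reg ε L n s).card : ℝ) := by
      rw [Finset.card_eq_sum_ones, Nat.cast_sum]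
      apply Finset.sum_congr rfl
      intro s hs
      rw [Finset.mem_filter] at hs
      rw [mu_one ((hZ s).1 hs.1).1 hs.2.2.1, Nat.cast_one]
    rw [h5]
    apply sep_card _ _ _ hTpos hd
    · intro s hs
      rw [Finset.mem_filter] at hs
      exact ((hZ s).1 hs.1).2
    · intro s hs z hz hne
      rw [Finset.mem_filter] at hs hz
      exact hs.2.2.2.1 z ((hZ z).1 hz.1).1 hne
  have hsplit : ∑ s ∈ Z, mu n s = ∑ s ∈ Z with reg ε L n s, mu n s +
      ∑ s ∈ Z with ¬ reg ε L n s, mu n s :=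
    (Finset.sum_filter_add_sum_filter_not Z (fun s => reg ε L n s) _).symm
  have h6 : T / ((1 - ε) * (2 * Real.pi / L)) ≤ (1 + δ / 3) * (T * L / (2 * Real.pi)) := by
    rw [div_le_iff₀ hd]
    have h7 : (1 + δ / 3) * (T * L / (2 * Real.pi)) * ((1 - ε) * (2 * Real.pi / L)) =
        (1 + δ / 3) * (1 - ε) * T := by
      field_simp
    rw [h7]
    have h8 : 1 ≤ (1 + δ / 3) * (1 - ε) := by nlinarith
    nlinarith
  have h9 : 1 ≤ δ / 3 * (T * L / (2 * Real.pi)) := by
    have h10 : 12 * Real.pi ≤ T * δ := by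
      rwa [div_le_iff₀ hδ] at hTT1
    have h11 : δ / 3 * (T * L / (2 * Real.pi)) = T * δ * L / (6 * Real.pi) := by
      field_simp
      ring
    rw [h11, le_div_iff₀ (by positivity)]
    nlinarith
  have h12 : δ / 3 / (2 * Real.pi) * (T * L) = δ / 3 * (T * L / (2 * Real.pi)) := by ring
  rw [h12] at hirr
  have h13 : (1 + δ) * (T * L / (2 * Real.pi)) = (1 + δ / 3) * (T * L / (2 * Real.pi)) +
      δ / 3 * (T * L / (2 * Real.pi)) + δ / 3 * (T * L / (2 * Real.pi)) := by ring
  rw [h13, hsplit]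
  linarith

end Pool.Agent.H24R2.PC
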