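import Pool.Agent.H24R2.DZ.All2
import Pool.Agent.H24R2.PC.Pair
import Pool.Agent.H24R2.PC.One
import Pool.Agent.H24R2.PC.Cnt
import Pool.Agent.H24R2.PC.Chain
import Pool.Agent.H24R2.PC.Loc
import Pool.Agent.H24R2.PC.Up
import Pool.Agent.H24R2.PC.Diag
import Pool.Agent.H24R2.PC.Fin
import Pool.Agent.H24R2.PC.Ex
import Pool.Agent.H24R2.PC.Low
import Pool.Agent.H24R2.PC.Upp

set_option autoImplicit false

/-!
# Assembly
-/

namespace Pool.Agent.H24R2.PC

open Pool.Agent.H24R2.DZ

theorem pairT : SPair := pPair c1T c2T ptAT ptCT countT unitT cirT strip farT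

theorem oneT : SOne := pOne strip

theorem cntT : SCnt := pCnt unitT

theorem pcT : SPC := pFin (pUp pairT cntT unitT oneT (pLoc pChain)) (pDiag pairT oneT)

theorem lowT : SLow := pLow c1T c2T (pEx half (ratE lap)) oneT

theorem uppT : SUpp := pUpp pairT oneT

end Pool.Agent.H24R2.PC
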