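import Pool.Agent.H24R2.DZ.Spec2

set_option autoImplicit false

/-!
# Pair correlation of the zeros of the derivatives of the Riemann xi function

`XX z = 8 ξ(1/2 + z)`; the zeros of `XX^(n)` are those of `ξ^(n)` shifted by `1/2`.
-/

namespace Pool.Agent.H24R2.PC

open Complex Filter Topology MeasureTheory Set
open Pool.Agent.H24R2.JP (XX HH Om)
open Pool.Agent.H24R2.DZ (reg SUnit)

/-- Multiplicity of the zero `s` of the `n`-th derivative. -/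
noncomputable def mu (n : ℕ) (s : ℂ) : ℝ := (analyticOrderNatAt (iteratedDeriv n XX) s : ℝ)

/-- PAIR: irregular zeros, weighted by the squared number of neighbours. -/
def SPair : Prop := ∀ ε D : ℝ, 0 < ε → ε ≤ 1 / 2 → 0 < D → ∃ c C T0 : ℝ, ∃ n0 : ℕ, 0 < c ∧ 0 < C ∧
  2 ≤ T0 ∧ ∀ (T : ℝ) (n : ℕ), T0 ≤ T → n0 ≤ n → (n : ℝ) ≤ Real.log T / 400 → ∀ S Z : Finset ℂ,
  (∀ s ∈ S, (iteratedDeriv n XX s = 0 ∧ ¬ reg ε (Real.log T) n s) ∧ T < s.im ∧ s.im ≤ 2 * T) →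
  (∀ z ∈ Z, iteratedDeriv n XX z = 0) →
  ∑ s ∈ S, mu n s * (∑ z ∈ Z with |z.im - s.im| ≤ D / Real.log T, mu n z) ^ 2 ≤
    C * T * Real.exp (-(c * n)) * Real.log T

/-- ONE: a zero has multiplicity at least one. -/
def SOne : Prop := ∀ (n : ℕ) (s : ℂ), iteratedDeriv n XX s = 0 → 1 ≤ mu n s

/-- CNT: the total number of zeros. -/
def SCnt : Prop := ∃ C T0 : ℝ, 0 < C ∧ 2 ≤ T0 ∧ ∀ (T : ℝ) (n : ℕ), T0 ≤ T → (n : ℝ) ≤ Real.log T →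
  ∀ S : Finset ℂ, (∀ s ∈ S, iteratedDeriv n XX s = 0 ∧ T < s.im ∧ s.im ≤ 2 * T) →
  ∑ s ∈ S, mu n s ≤ C * (T * Real.log T)

/-- CHAIN: consecutive regular points. -/
def SChain : Prop := ∀ (Q : Set ℂ) (u ε : ℝ) (K : ℕ) (s : ℂ), 0 < u → 0 < ε →
  ε * (4 * ((K : ℝ) + 2)) ≤ 1 → s ∈ Q →
  (∀ z ∈ Q, s.im ≤ z.im → z.im ≤ s.im + ((K : ℝ) + 2) * u →
    (∀ z' ∈ Q, z' ≠ z → (1 - ε) * u ≤ |z'.im - z.im|) ∧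
    ∃ z' ∈ Q, (1 - ε) * u ≤ z'.im - z.im ∧ z'.im - z.im ≤ (1 + ε) * u) →
  ∃ σ : ℕ → ℂ, (∀ k : ℕ, 1 ≤ k → k ≤ K → σ k ∈ Q ∧ |(σ k).im - s.im - k * u| ≤ ε * k * u) ∧
    (∀ i j : ℕ, 1 ≤ i → i ≤ K → 1 ≤ j → j ≤ K → σ i = σ j → i = j) ∧
    ∀ z ∈ Q, s.im < z.im → z.im ≤ s.im + K * u → ∃ k : ℕ, 1 ≤ k ∧ k ≤ K ∧ z = σ k

/-- LOC: the zeros above a zero whose upper neighbours are all regular. -/
def SLoc : Prop := ∀ (g : ℝ → ℝ) (K : ℕ) (ε δ : ℝ) (n : ℕ) (L : ℝ) (s : ℂ) (Z : Finset ℂ),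
  0 < ε → ε * (4 * ((K : ℝ) + 2)) ≤ 1 → 0 < L → (∀ x : ℝ, (K : ℝ) < x → g x = 0) →
  (∀ x y : ℝ, |x - y| ≤ ε * K → |g x - g y| ≤ δ) → iteratedDeriv n XX s = 0 →
  (∀ z : ℂ, iteratedDeriv n XX z = 0 → s.im ≤ z.im → z.im ≤ s.im + ((K : ℝ) + 2) * (2 * Real.pi / L) →
    reg ε L n z) →
  (∀ z ∈ Z, iteratedDeriv n XX z = 0) →
  (∀ z : ℂ, iteratedDeriv n XX z = 0 → s.im < z.im → z.im ≤ s.im + ((K : ℝ) + 2) * (2 * Real.pi / L) →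
    z ∈ Z) →
  |∑ z ∈ Z with s.im < z.im, mu n z * g ((z.im - s.im) * L / (2 * Real.pi)) -
    ∑ k ∈ Finset.Icc 1 K, g k| ≤ K * δ

/-- `Z` is the set of all zeros of the `n`-th derivative at the heights `(T, 2T]`. -/
def AllZ (n : ℕ) (T : ℝ) (Z : Finset ℂ) : Prop :=
  ∀ z : ℂ, z ∈ Z ↔ (iteratedDeriv n XX z = 0 ∧ T < z.im ∧ z.im ≤ 2 * T)

/-- UP: pairs, the second zero above the first. -/
def SUp : Prop := ∀ (g : ℝ → ℝ) (K : ℕ), Continuous g → (∀ x : ℝ, (K : ℝ) ≤ |x| → g x = 0) →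
  ∀ δ : ℝ, 0 < δ → ∃ n0 : ℕ, ∃ T0 : ℝ, 2 ≤ T0 ∧ ∀ (T : ℝ) (n : ℕ), T0 ≤ T → n0 ≤ n →
  (n : ℝ) ≤ Real.log T / 400 → ∀ Z : Finset ℂ, AllZ n T Z →
  |∑ s ∈ Z, mu n s * ∑ z ∈ Z with s.im < z.im, mu n z * g ((z.im - s.im) * Real.log T / (2 * Real.pi)) -
    (∑ k ∈ Finset.Icc 1 K, g k) * ∑ s ∈ Z, mu n s| ≤ δ * (T * Real.log T)

/-- DIAG: pairs of zeros at the same height. -/
def SDiag : Prop := ∀ δ : ℝ, 0 < δ → ∃ n0 : ℕ, ∃ T0 : ℝ, 2 ≤ T0 ∧ ∀ (T : ℝ) (n : ℕ), T0 ≤ T → n0 ≤ n →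
  (n : ℝ) ≤ Real.log T / 400 → ∀ Z : Finset ℂ, AllZ n T Z →
  |∑ s ∈ Z, mu n s * ∑ z ∈ Z with z.im = s.im, mu n z - ∑ s ∈ Z, mu n s| ≤ δ * (T * Real.log T)

/-- FIN: the pair correlation. -/
def SPC : Prop := ∀ f : ℝ → ℝ, Continuous f → HasCompactSupport f → ∀ δ : ℝ, 0 < δ → ∃ n0 : ℕ, ∃ T0 : ℝ,
  2 ≤ T0 ∧ ∀ (T : ℝ) (n : ℕ), T0 ≤ T → n0 ≤ n → (n : ℝ) ≤ Real.log T / 400 →
  ∀ Z : Finset ℂ, AllZ n T Z →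
  |∑ s ∈ Z, ∑ z ∈ Z, mu n s * mu n z * f ((z.im - s.im) * Real.log T / (2 * Real.pi)) -
    (∑' k : ℤ, f k) * ∑ s ∈ Z, mu n s| ≤ δ * (T * Real.log T)

end Pool.Agent.H24R2.PC
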