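import Pool.Agent.H24R2.PC.Spec

set_option autoImplicit false

/-!
# The number of zeros of the derivatives of the Riemann xi function
-/

namespace Pool.Agent.H24R2.PC

open Complex Filter Topology MeasureTheory Set
open Pool.Agent.H24R2.JP (XX HH Om)
open Pool.Agent.H24R2.DZ

/-- EX: at a good point there is a zero on the line in every interval of length `(1 + ε) π / n`. -/
def SEx : Prop := ∀ ε : ℝ, 0 < ε → ε ≤ 1 / 2 → ∃ η : ℝ, ∃ n0 : ℕ, 0 < η ∧ 1 ≤ n0 ∧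
  ∀ (n : ℕ) (F : ℂ → ℂ), n0 ≤ n → NN n η F → ∀ y0 : ℝ, |y0| ≤ 1 / 200 →
    ∃ y : ℝ, y0 ≤ y ∧ y ≤ y0 + (1 + ε) * (Real.pi / n) ∧ iteratedDeriv n F (I * y) = 0

/-- LOW: lower bound for the number of zeros. -/
def SLow : Prop := ∀ δ : ℝ, 0 < δ → ∃ n0 : ℕ, ∃ T0 : ℝ, 2 ≤ T0 ∧ ∀ (T : ℝ) (n : ℕ), T0 ≤ T → n0 ≤ n →
  (n : ℝ) ≤ Real.log T / 400 → ∀ Z : Finset ℂ, AllZ n T Z →
  (1 - δ) * (T * Real.log T / (2 * Real.pi)) ≤ ∑ s ∈ Z, mu n s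

/-- UPP: upper bound for the number of zeros. -/
def SUpp : Prop := ∀ δ : ℝ, 0 < δ → ∃ n0 : ℕ, ∃ T0 : ℝ, 2 ≤ T0 ∧ ∀ (T : ℝ) (n : ℕ), T0 ≤ T → n0 ≤ n →
  (n : ℝ) ≤ Real.log T / 400 → ∀ Z : Finset ℂ, AllZ n T Z →
  ∑ s ∈ Z, mu n s ≤ (1 + δ) * (T * Real.log T / (2 * Real.pi))

end Pool.Agent.H24R2.PC
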